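import Mathlib

/-!
# The cubic q-Serre relations
-/

set_option autoImplicit false

namespace Pool.Agent.L5helper22.QC

section Serre

variable (K : Type*) [Field K] (q : K)

/-- The number `[3]_q = q^2 + 1 + q^(-2)`. -/
def three : K := q ^ 2 + 1 + (q ^ 2)⁻¹

/-- The cubic q-Serre expression `a^3 b - [3] a^2 b a + [3] a b a^2 - b a^3`. -/
def serre {E : Type*} [Ring E] [Algebra K E] (a b : E) : E :=
  a ^ 3 * b - three K q • (a ^ 2 * b * a) + three K q • (a * b * a ^ 2) - b * a ^ 3

/-- The two defining relations. -/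
inductive SRel : FreeAlgebra K (Fin 2) → FreeAlgebra K (Fin 2) → Prop
  | zero_one : SRel (serre K q (FreeAlgebra.ι K 0) (FreeAlgebra.ι K 1)) 0
  | one_zero : SRel (serre K q (FreeAlgebra.ι K 1) (FreeAlgebra.ι K 0)) 0

end Serre

end Pool.Agent.L5helper22.QC
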