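import Pool.Agent.L5helper22.QC.Wgt

/-!
# The braided coproduct
-/

set_option autoImplicit false

open scoped TensorProduct

namespace Pool.Agent.L5helper22.QC

variable {K : Type*} [Field K] {q : K}

/-- The cubic q-Serre expression of two sums which q-commute. -/
theorem serre_add (hq : q ≠ 0) {E : Type*} [Ring E] [Algebra K E] (a b c d : E)
    (hba : b * a = (q ^ 2 : K) • (a * b)) (hbc : b * c = ((q ^ 2)⁻¹ : K) • (c * b))
    (hda : d * a = ((q ^ 2)⁻¹ : K) • (a * d)) :
    serre K q (a + b) (c + d) = serre K q a c + serre K q b d := by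
  have hba' : ∀ z, b * (a * z) = (q ^ 2 : K) • (a * (b * z)) := by
    intro z; rw [← mul_assoc, hba, smul_mul_assoc, mul_assoc]
  have hbc' : ∀ z, b * (c * z) = ((q ^ 2)⁻¹ : K) • (c * (b * z)) := by
    intro z; rw [← mul_assoc, hbc, smul_mul_assoc, mul_assoc]
  have hda' : ∀ z, d * (a * z) = ((q ^ 2)⁻¹ : K) • (a * (d * z)) := by
    intro z; rw [← mul_assoc, hda, smul_mul_assoc, mul_assoc]
  unfold serre three
  simp only [pow_succ, pow_zero, one_mul] at hba hbc hda hba' hbc' hda' ⊢
  simp only [mul_add, add_mul, mul_assoc, smul_mul_assoc, mul_smul_comm, hba, hbc, hda, hba', hbc',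
    hda', smul_smul, smul_add]
  match_scalars <;> field_simp <;> ring

theorem serre_mul_comm {E : Type*} [Ring E] [Algebra K E] (P P' Q Q' : E)
    (h1 : Q * P = P * Q) (h2 : Q * P' = P' * Q) (h3 : Q' * P = P * Q')
    (h5 : P' * P = P * P') : serre K q (P * Q) (P' * Q') = P ^ 3 * P' * serre K q Q Q' := by
  have h1' : ∀ z, Q * (P * z) = P * (Q * z) := by intro z; rw [← mul_assoc, h1, mul_assoc]
  have h2' : ∀ z, Q * (P' * z) = P' * (Q * z) := by intro z; rw [← mul_assoc, h2, mul_assoc]
  have h3' : ∀ z, Q' * (P * z) = P * (Q' * z) := by intro z; rw [← mul_assoc, h3, mul_assoc]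
  have h5' : ∀ z, P' * (P * z) = P * (P' * z) := by intro z; rw [← mul_assoc, h5, mul_assoc]
  unfold serre three
  simp only [pow_succ, pow_zero, one_mul]
  simp only [mul_add, mul_sub, mul_assoc, mul_smul_comm, h1', h2', h3', h5']

/-- Multiplication by a generator in the first factor. -/
noncomputable def opA (i : Fin 2) : Module.End K (U K q ⊗[K] U K q) :=
  Module.End.rTensorAlgHom K (U K q) (U K q) (Algebra.lmul K (U K q) (x K q i))

/-- Multiplication by a generator in the second factor. -/
noncomputable def opQ (i : Fin 2) : Module.End K (U K q ⊗[K] U K q) :=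
  Module.End.lTensorAlgHom K (U K q) (U K q) (Algebra.lmul K (U K q) (x K q i))

/-- Scaling in the first factor. -/
noncomputable def opP (i : Fin 2) : Module.End K (U K q ⊗[K] U K q) :=
  Module.End.rTensorAlgHom K (U K q) (U K q) (kap i)

theorem opA_tmul (i : Fin 2) (u v : U K q) : opA i (u ⊗ₜ[K] v) = (x K q i * u) ⊗ₜ[K] v := rfl
theorem opQ_tmul (i : Fin 2) (u v : U K q) : opQ i (u ⊗ₜ[K] v) = u ⊗ₜ[K] (x K q i * v) := rfl
theorem opP_tmul (i : Fin 2) (u v : U K q) : opP i (u ⊗ₜ[K] v) = kap i u ⊗ₜ[K] v := rfl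

theorem kap_comm (i j : Fin 2) (u : U K q) : kap i (kap j u) = kap j (kap i u) := by
  unfold kap
  rw [wt_wt, wt_wt]
  congr 2
  funext g
  rw [mul_comm]

theorem opQP (i j : Fin 2) : opQ i * opP j = opP j * opQ (K := K) (q := q) i := by
  ext u v; rfl

theorem opPP (i j : Fin 2) : opP i * opP j = opP j * opP (K := K) (q := q) i := by
  apply TensorProduct.ext'
  intro u v
  rw [Module.End.mul_apply, Module.End.mul_apply, opP_tmul, opP_tmul, opP_tmul, opP_tmul, kap_comm]

section

variable (hq : q ≠ 0)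
include hq

theorem opBA (i j : Fin 2) : (opP i * opQ i) * opA j =
    (q ^ cc i j : K) • (opA j * (opP i * opQ (K := K) (q := q) i)) := by
  apply TensorProduct.ext'
  intro u v
  simp only [Module.End.mul_apply, LinearMap.smul_apply, opA_tmul, opQ_tmul, opP_tmul]
  rw [kap_x_mul hq, TensorProduct.smul_tmul']

theorem serre_op_sum {i j : Fin 2} (hij : i ≠ j) :
    serre K q (opA i + opP i * opQ i) (opA j + opP j * opQ (K := K) (q := q) j) = 0 := by
  rw [serre_add hq]
  · have hA : serre K q (opA (K := K) (q := q) i) (opA j) = 0 := by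
      unfold opA
      rw [← map_serre, ← map_serre, serre_x hij, map_zero, map_zero]
    have hQ : serre K q (opQ (K := K) (q := q) i) (opQ j) = 0 := by
      unfold opQ
      rw [← map_serre, ← map_serre, serre_x hij, map_zero, map_zero]
    rw [hA, zero_add, serre_mul_comm _ _ _ _ (opQP _ _) (opQP _ _) (opQP _ _) (opPP _ _), hQ,
      mul_zero]
  · have h := opBA (K := K) hq i i
    rwa [show cc i i = 2 by simp [cc], zpow_two_eq] at h
  · have h := opBA (K := K) hq i j
    rwa [show cc i j = -2 by simp [cc, hij], zpow_neg_two_eq] at h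
  · have h := opBA (K := K) hq j i
    rwa [show cc j i = -2 by simp [cc, hij.symm], zpow_neg_two_eq] at h

end

/-- The action of the algebra on its tensor square. -/
noncomputable def DD (hq : q ≠ 0) : U K q →ₐ[K] Module.End K (U K q ⊗[K] U K q) :=
  lift (fun i => opA i + opP i * opQ i) (serre_op_sum hq (by decide)) (serre_op_sum hq (by decide))

theorem DD_x (hq : q ≠ 0) (i : Fin 2) (t : U K q ⊗[K] U K q) :
    DD hq (x K q i) t = opA i t + opP i (opQ i t) := by
  unfold DD; rw [lift_x]; rfl

/-- The braided coproduct. -/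
noncomputable def cop (hq : q ≠ 0) : U K q →ₗ[K] U K q ⊗[K] U K q where
  toFun u := DD hq u (1 ⊗ₜ[K] 1)
  map_add' u v := by simp
  map_smul' c u := by simp

theorem cop_one (hq : q ≠ 0) : cop hq (1 : U K q) = 1 ⊗ₜ[K] 1 := by
  change DD hq 1 _ = _
  rw [map_one, Module.End.one_apply]

theorem cop_x_mul (hq : q ≠ 0) (i : Fin 2) (u : U K q) :
    cop hq (x K q i * u) = opA i (cop hq u) + opP i (opQ i (cop hq u)) := by
  change DD hq (x K q i * u) _ = _
  rw [map_mul, Module.End.mul_apply, DD_x]
  rfl

/-- The left skew derivation in the first factor. -/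
theorem ld_cop (hq : q ≠ 0) (j : Fin 2) (u : U K q) :
    (ld hq j).rTensor (U K q) (cop hq u) = cop hq (ld hq j u) := by
  have key : ∀ (i : Fin 2) (t : U K q ⊗[K] U K q),
      (ld hq j).rTensor (U K q) (opA i t + opP i (opQ i t)) = (if j = i then t else 0) +
        (q ^ cc j i : K) • (opA i ((ld hq j).rTensor (U K q) t) +
          opP i (opQ i ((ld hq j).rTensor (U K q) t))) := by
    intro i t
    induction t using TensorProduct.induction_on with
    | zero => simp
    | tmul u v =>
      rw [opA_tmul, opQ_tmul, opP_tmul, map_add, LinearMap.rTensor_tmul, LinearMap.rTensor_tmul,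
        LinearMap.rTensor_tmul, opA_tmul, opQ_tmul, opP_tmul, ld_x_mul, ld_kap,
        TensorProduct.add_tmul, smul_add, TensorProduct.smul_tmul', TensorProduct.smul_tmul',
        add_assoc]
      congr 1
      split_ifs
      · rfl
      · rw [TensorProduct.zero_tmul]
    | add s t hs ht =>
      have e : opA i (s + t) + opP i (opQ i (s + t)) =
          (opA i s + opP i (opQ i s)) + (opA i t + opP i (opQ i t)) := by
        simp only [map_add]; abel
      rw [e, map_add, hs, ht]
      split_ifs <;> simp only [map_add, smul_add] <;> abel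
  induction u using ind with
  | h1 => rw [cop_one, LinearMap.rTensor_tmul, ld_one, map_zero, TensorProduct.zero_tmul]
  | hx i u hu =>
    rw [cop_x_mul, key, hu, ld_x_mul, map_add, map_smul, cop_x_mul]
    congr 1
    split_ifs
    · rfl
    · rw [map_zero]
  | hadd u v hu hv => simp only [map_add, hu, hv]
  | hsmul c u hu => simp only [map_smul, hu]

/-- Antipode times identity. -/
noncomputable def MM : U K q ⊗[K] U K q →ₗ[K] U K q :=
  LinearMap.mul' K (U K q) ∘ₗ (anti).rTensor (U K q)

theorem MM_tmul (u v : U K q) : MM (u ⊗ₜ[K] v) = anti u * v := rfl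

theorem MM_zero (hq : q ≠ 0) (i : Fin 2) (t : U K q ⊗[K] U K q) :
    MM (opA i t + opP i (opQ i t)) = 0 := by
  induction t using TensorProduct.induction_on with
  | zero => simp
  | tmul u v =>
    rw [opA_tmul, opQ_tmul, opP_tmul, map_add, MM_tmul, MM_tmul, anti_x_mul hq]
    rw [neg_mul, mul_assoc, neg_add_cancel]
  | add s t hs ht =>
    have e : opA i (s + t) + opP i (opQ i (s + t)) =
        (opA i s + opP i (opQ i s)) + (opA i t + opP i (opQ i t)) := by
      simp only [map_add]; abel
    rw [e, map_add, hs, ht, add_zero]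

theorem MM_cop (hq : q ≠ 0) (u : U K q) : MM (cop hq u) = pr 0 u := by
  induction u using ind with
  | h1 => rw [cop_one, MM_tmul, anti_one, mul_one, pr_one, if_pos rfl]
  | hx i u _ =>
    rw [cop_x_mul, MM_zero hq, pr_x_mul, pr_nonpos, mul_zero]
    · rw [zero_sub]; fin_cases i <;> simp [ht, al]
    · rw [zero_sub]; fin_cases i <;> simp [al]
  | hadd u v hu hv => simp only [map_add, hu, hv]
  | hsmul c u hu => simp only [map_smul, hu]

/-- The component of degree `g` of the first factor. -/
noncomputable def Pg (g : ℤ × ℤ) : U K q ⊗[K] U K q →ₗ[K] U K q ⊗[K] U K q :=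
  (pr g).rTensor (U K q)

theorem Pg_tmul (g : ℤ × ℤ) (u v : U K q) : Pg g (u ⊗ₜ[K] v) = pr g u ⊗ₜ[K] v := rfl

theorem pr_kap (g : ℤ × ℤ) (i : Fin 2) (u : U K q) : pr g (kap i u) = kap i (pr g u) := by
  unfold kap; rw [pr_wt, wt_pr]

theorem Pg_op (g : ℤ × ℤ) (i : Fin 2) (t : U K q ⊗[K] U K q) :
    Pg g (opA i t + opP i (opQ i t)) = opA i (Pg (g - al i) t) + opP i (opQ i (Pg g t)) := by
  induction t using TensorProduct.induction_on with
  | zero => simp
  | tmul u v =>
    rw [opA_tmul, opQ_tmul, opP_tmul, map_add, Pg_tmul, Pg_tmul, Pg_tmul, Pg_tmul, opA_tmul,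
      opQ_tmul, opP_tmul, pr_x_mul, pr_kap]
  | add s t hs ht =>
    have e : opA i (s + t) + opP i (opQ i (s + t)) =
        (opA i s + opP i (opQ i s)) + (opA i t + opP i (opQ i t)) := by
      simp only [map_add]; abel
    rw [e, map_add, hs, ht]
    simp only [map_add]
    abel

theorem ht_sub_al (g : ℤ × ℤ) (i : Fin 2) : ht (g - al i) = ht g - 1 := by
  rw [sub_eq_add_neg, ht_add]
  have : ht (-al i) = -1 := by fin_cases i <;> simp [ht, al]
  omega

theorem Pg_neg (hq : q ≠ 0) (u : U K q) : ∀ (g : ℤ × ℤ), ht g < 0 → Pg g (cop hq u) = 0 := by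
  induction u using ind with
  | h1 =>
    intro g hg
    rw [cop_one, Pg_tmul, pr_one, if_neg, TensorProduct.zero_tmul]
    rintro rfl
    rw [ht_zero] at hg
    omega
  | hx i u hu =>
    intro g hg
    rw [cop_x_mul, Pg_op, hu g hg, hu _ (by rw [ht_sub_al]; omega)]
    simp
  | hadd u v hu hv => intro g hg; rw [map_add, map_add, hu g hg, hv g hg, add_zero]
  | hsmul c u hu => intro g hg; rw [map_smul, map_smul, hu g hg, smul_zero]

theorem Pg_zero (hq : q ≠ 0) (u : U K q) : ∀ (g : ℤ × ℤ), ht g = 0 →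
    Pg g (cop hq u) = if g = 0 then 1 ⊗ₜ[K] u else 0 := by
  induction u using ind with
  | h1 =>
    intro g _
    rw [cop_one, Pg_tmul, pr_one]
    split_ifs
    · rfl
    · rw [TensorProduct.zero_tmul]
  | hx i u hu =>
    intro g hg
    rw [cop_x_mul, Pg_op, hu g hg, Pg_neg hq u _ (by rw [ht_sub_al]; omega), map_zero, zero_add]
    split_ifs
    · rw [opQ_tmul, opP_tmul, kap_one]
    · simp
  | hadd u v hu hv =>
    intro g hg
    rw [map_add, map_add, hu g hg, hv g hg]
    split_ifs
    · rw [TensorProduct.tmul_add]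
    · simp
  | hsmul c u hu =>
    intro g hg
    rw [map_smul, map_smul, hu g hg]
    split_ifs
    · rw [TensorProduct.tmul_smul]
    · simp

theorem Pg_big (hq : q ≠ 0) (u : U K q) : ∀ (g h : ℤ × ℤ), ht h < ht g →
    Pg g (cop hq (pr h u)) = 0 := by
  induction u using ind with
  | h1 =>
    intro g h hgh
    rw [pr_one]
    split_ifs with h0
    · subst h0
      rw [cop_one, Pg_tmul, pr_one, if_neg, TensorProduct.zero_tmul]
      rintro rfl
      omega
    · rw [map_zero, map_zero]
  | hx i u hu =>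
    intro g h hgh
    rw [pr_x_mul, cop_x_mul, Pg_op, hu _ _ (by rw [ht_sub_al, ht_sub_al]; omega),
      hu _ _ (by rw [ht_sub_al]; omega)]
    simp
  | hadd u v hu hv => intro g h hgh; rw [map_add, map_add, map_add, hu g h hgh, hv g h hgh, add_zero]
  | hsmul c u hu => intro g h hgh; rw [map_smul, map_smul, map_smul, hu g h hgh, smul_zero]

theorem Pg_top (hq : q ≠ 0) (u : U K q) : ∀ (g h : ℤ × ℤ), ht g = ht h →
    Pg g (cop hq (pr h u)) = pr g (pr h u) ⊗ₜ[K] 1 := by
  induction u using ind with
  | h1 =>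
    intro g h hgh
    rw [pr_one]
    split_ifs with h0
    · rw [cop_one, Pg_tmul]
    · simp
  | hx i u hu =>
    intro g h hgh
    rw [pr_x_mul, cop_x_mul, Pg_op, hu _ _ (by rw [ht_sub_al, ht_sub_al]; omega),
      Pg_big hq _ _ _ (by rw [ht_sub_al]; omega), opA_tmul, pr_x_mul]
    simp
  | hadd u v hu hv =>
    intro g h hgh
    simp only [map_add, hu g h hgh, hv g h hgh, TensorProduct.add_tmul]
  | hsmul c u hu =>
    intro g h hgh
    simp only [map_smul, hu g h hgh, TensorProduct.smul_tmul']

end Pool.Agent.L5helper22.QC
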