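import Pool.Agent.L5helper22.QC.Base

/-!
# The positive part of the quantum affine algebra of type A_1^(1)

Generators, the cubic q-Serre relations, lifting of algebra maps, induction on words.
-/

set_option autoImplicit false

open scoped TensorProduct

namespace Pool.Agent.L5helper22.QC

section Serre

variable (K : Type*) [Field K] (q : K)

/-- The algebra with two generators and the two cubic q-Serre relations. -/
def U : Type _ := RingQuot (SRel K q)

instance : Ring (U K q) := inferInstanceAs (Ring (RingQuot (SRel K q)))
instance : Algebra K (U K q) := inferInstanceAs (Algebra K (RingQuot (SRel K q)))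

/-- The two generators. -/
def x (i : Fin 2) : U K q := RingQuot.mkAlgHom K (SRel K q) (FreeAlgebra.ι K i)

end Serre

variable {K : Type*} [Field K] {q : K}

theorem map_serre {E F : Type*} [Ring E] [Algebra K E] [Ring F] [Algebra K F] (f : E →ₐ[K] F)
    (a b : E) : f (serre K q a b) = serre K q (f a) (f b) := by
  simp [serre, map_add, map_sub, map_mul, map_pow, map_smul]

theorem serre_x01 : serre K q (x K q 0) (x K q 1) = 0 := by
  have h := RingQuot.mkAlgHom_rel K (SRel.zero_one (K := K) (q := q))
  rw [map_zero, map_serre] at h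
  exact h

theorem serre_x10 : serre K q (x K q 1) (x K q 0) = 0 := by
  have h := RingQuot.mkAlgHom_rel K (SRel.one_zero (K := K) (q := q))
  rw [map_zero, map_serre] at h
  exact h

theorem serre_x {i j : Fin 2} (h : i ≠ j) : serre K q (x K q i) (x K q j) = 0 := by
  fin_cases i <;> fin_cases j <;> first | exact absurd rfl h | exact serre_x01 | exact serre_x10

/-- Lifting to algebras. -/
def lift {E : Type*} [Ring E] [Algebra K E] (y : Fin 2 → E) (h01 : serre K q (y 0) (y 1) = 0)
    (h10 : serre K q (y 1) (y 0) = 0) : U K q →ₐ[K] E :=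
  RingQuot.liftAlgHom K ⟨FreeAlgebra.lift K y, by
    intro a b hab
    cases hab
    · rw [map_serre, map_zero]; simpa using h01
    · rw [map_serre, map_zero]; simpa using h10⟩

@[simp] theorem lift_x {E : Type*} [Ring E] [Algebra K E] (y : Fin 2 → E)
    (h01 : serre K q (y 0) (y 1) = 0) (h10 : serre K q (y 1) (y 0) = 0) (i : Fin 2) :
    lift y h01 h10 (x K q i) = y i := by
  unfold lift x
  erw [RingQuot.liftAlgHom_mkAlgHom_apply]
  simp

theorem adjoin_x : Algebra.adjoin K (Set.range (x K q)) = ⊤ := by
  have h1 : (Algebra.adjoin K (Set.range (FreeAlgebra.ι K : Fin 2 → FreeAlgebra K (Fin 2)))) = ⊤ :=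
    FreeAlgebra.adjoin_range_ι K (Fin 2)
  have h2 := congrArg (Subalgebra.map (RingQuot.mkAlgHom K (SRel K q))) h1
  rw [AlgHom.map_adjoin, Algebra.map_top, ← Set.range_comp] at h2
  rw [show (x K q) = (RingQuot.mkAlgHom K (SRel K q)) ∘ (FreeAlgebra.ι K) from rfl]
  erw [h2]
  exact (AlgHom.range_eq_top _).2 (RingQuot.mkAlgHom_surjective K _)

/-- Induction on words. -/
theorem ind {P : U K q → Prop} (h1 : P 1) (hx : ∀ i u, P u → P (x K q i * u))
    (hadd : ∀ u v, P u → P v → P (u + v)) (hsmul : ∀ (c : K) u, P u → P (c • u)) (u : U K q) :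
    P u := by
  have key : ∀ a : U K q, ∀ u, P u → P (a * u) := by
    intro a
    have ha : a ∈ Algebra.adjoin K (Set.range (x K q)) := by rw [adjoin_x]; trivial
    induction ha using Algebra.adjoin_induction with
    | mem a ha =>
      obtain ⟨i, rfl⟩ := ha
      exact fun u hu => hx i u hu
    | algebraMap r => intro u hu; rw [← Algebra.smul_def]; exact hsmul r u hu
    | add a b _ _ iha ihb => intro u hu; rw [add_mul]; exact hadd _ _ (iha u hu) (ihb u hu)
    | mul a b _ _ iha ihb => intro u hu; rw [mul_assoc]; exact iha _ (ihb u hu)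
  simpa using key u 1 h1

/-- Two linear maps are equal if they agree at `1` and the recursion is the same. -/
theorem lin_ext {V : Type*} [AddCommGroup V] [Module K V] {f g : U K q →ₗ[K] V}
    (h1 : f 1 = g 1) (hx : ∀ i u, f u = g u → f (x K q i * u) = g (x K q i * u)) : f = g := by
  ext u
  induction u using ind with
  | h1 => exact h1
  | hx i u hu => exact hx i u hu
  | hadd u v hu hv => rw [map_add, map_add, hu, hv]
  | hsmul c u hu => rw [map_smul, map_smul, hu]

/-- Two algebra maps are equal if they agree at the generators. -/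
theorem alg_ext {E : Type*} [Ring E] [Algebra K E] {f g : U K q →ₐ[K] E}
    (h : ∀ i, f (x K q i) = g (x K q i)) : f = g := by
  ext u
  induction u using ind with
  | h1 => rw [map_one, map_one]
  | hx i u hu => rw [map_mul, map_mul, hu, h]
  | hadd u v hu hv => rw [map_add, map_add, hu, hv]
  | hsmul c u hu => rw [map_smul, map_smul, hu]

end Pool.Agent.L5helper22.QC
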