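import Pool.Agent.L5helper22.QC.Def

/-!
# The grading, the scaling automorphisms and the anti-automorphism
-/

set_option autoImplicit false

namespace Pool.Agent.L5helper22.QC

variable {K : Type*} [Field K] {q : K}

/-- The form on the simple roots. -/
def cc (i j : Fin 2) : ℤ := if i = j then 2 else -2

/-- The simple roots. -/
def al : Fin 2 → ℤ × ℤ := ![(1, 0), (0, 1)]

/-- The form of a simple root and any root. -/
def bf (i : Fin 2) (g : ℤ × ℤ) : ℤ := if i = 0 then 2 * g.1 - 2 * g.2 else 2 * g.2 - 2 * g.1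

/-- The height. -/
def ht (g : ℤ × ℤ) : ℤ := g.1 + g.2

/-- The exponent of the antipode. -/
def ee (g : ℤ × ℤ) : ℤ := (g.1 - g.2) ^ 2 - (g.1 + g.2)

theorem ht_add (g h : ℤ × ℤ) : ht (g + h) = ht g + ht h := by simp [ht]; ring

theorem ht_al (i : Fin 2) : ht (al i) = 1 := by fin_cases i <;> simp [ht, al]

theorem ht_zero : ht 0 = 0 := rfl

theorem bf_add (i : Fin 2) (g h : ℤ × ℤ) : bf i (g + h) = bf i g + bf i h := by
  unfold bf; split_ifs <;> simp <;> ring

theorem bf_al (i j : Fin 2) : bf i (al j) = cc i j := by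
  fin_cases i <;> fin_cases j <;> simp [bf, al, cc]

theorem bf_zero (i : Fin 2) : bf i 0 = 0 := by unfold bf; split_ifs <;> simp

theorem cc_comm (i j : Fin 2) : cc i j = cc j i := by unfold cc; simp [eq_comm]

theorem ee_al (g : ℤ × ℤ) (i : Fin 2) : ee (al i + g) = ee g + bf i g := by
  fin_cases i <;> simp [ee, bf, al] <;> ring

theorem ee_zero : ee 0 = 0 := by simp [ee]

/-- The algebra map into the algebra of Laurent polynomials in two variables which records the
degree. -/
noncomputable def G : U K q →ₐ[K] AddMonoidAlgebra (U K q) (ℤ × ℤ) :=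
  lift (fun i => AddMonoidAlgebra.single (al i) (x K q i))
    (by
      have h := serre_x01 (K := K) (q := q)
      unfold serre at h ⊢
      simp only [AddMonoidAlgebra.single_pow, AddMonoidAlgebra.single_mul_single,
        AddMonoidAlgebra.smul_single]
      have e1 : (3 : ℕ) • al 0 + al 1 = ((3 : ℤ), (1 : ℤ)) := by simp [al]
      have e2 : (2 : ℕ) • al 0 + al 1 + al 0 = ((3 : ℤ), (1 : ℤ)) := by simp [al]
      have e3 : al 0 + al 1 + (2 : ℕ) • al 0 = ((3 : ℤ), (1 : ℤ)) := by simp [al]
      have e4 : al 1 + (3 : ℕ) • al 0 = ((3 : ℤ), (1 : ℤ)) := by simp [al]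
      rw [e1, e2, e3, e4, ← AddMonoidAlgebra.single_sub, ← AddMonoidAlgebra.single_add,
        ← AddMonoidAlgebra.single_sub, h, AddMonoidAlgebra.single_zero])
    (by
      have h := serre_x10 (K := K) (q := q)
      unfold serre at h ⊢
      simp only [AddMonoidAlgebra.single_pow, AddMonoidAlgebra.single_mul_single,
        AddMonoidAlgebra.smul_single]
      have e1 : (3 : ℕ) • al 1 + al 0 = ((1 : ℤ), (3 : ℤ)) := by simp [al]
      have e2 : (2 : ℕ) • al 1 + al 0 + al 1 = ((1 : ℤ), (3 : ℤ)) := by simp [al]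
      have e3 : al 1 + al 0 + (2 : ℕ) • al 1 = ((1 : ℤ), (3 : ℤ)) := by simp [al]
      have e4 : al 0 + (3 : ℕ) • al 1 = ((1 : ℤ), (3 : ℤ)) := by simp [al]
      rw [e1, e2, e3, e4, ← AddMonoidAlgebra.single_sub, ← AddMonoidAlgebra.single_add,
        ← AddMonoidAlgebra.single_sub, h, AddMonoidAlgebra.single_zero])

@[simp] theorem G_x (i : Fin 2) : G (x K q i) = AddMonoidAlgebra.single (al i) (x K q i) := by
  unfold G; simp

/-- The homogeneous component of degree `g`. -/
noncomputable def pr (g : ℤ × ℤ) : U K q →ₗ[K] U K q where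
  toFun u := (G u).coeff g
  map_add' u v := by simp
  map_smul' c u := by simp

theorem pr_def (g : ℤ × ℤ) (u : U K q) : pr g u = (G u).coeff g := rfl

theorem pr_x_mul (g : ℤ × ℤ) (i : Fin 2) (u : U K q) :
    pr g (x K q i * u) = x K q i * pr (g - al i) u := by
  rw [pr_def, map_mul, G_x, AddMonoidAlgebra.coeff_single_mul_apply, pr_def, neg_add_eq_sub]

theorem pr_mul_x (g : ℤ × ℤ) (i : Fin 2) (u : U K q) :
    pr g (u * x K q i) = pr (g - al i) u * x K q i := by
  rw [pr_def, map_mul, G_x, AddMonoidAlgebra.coeff_mul_single_apply, pr_def, sub_eq_add_neg]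

theorem pr_one (g : ℤ × ℤ) : pr g (1 : U K q) = if g = 0 then 1 else 0 := by
  rw [pr_def, map_one, AddMonoidAlgebra.one_def]
  simp [Finsupp.single_apply, eq_comm]

end Pool.Agent.L5helper22.QC
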