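import Pool.Agent.L5helper22.QC.Tau

/-!
# Integrability: an element killed by the skew derivations on both sides has nonpositive weight
-/

set_option autoImplicit false

namespace Pool.Agent.L5helper22.QC

variable {K : Type*} [Field K] {q : K}

/-- The q-commutator with a generator. -/
noncomputable def ad (i : Fin 2) : U K q →ₗ[K] U K q :=
  LinearMap.mulLeft K (x K q i) - LinearMap.mulRight K (x K q i) ∘ₗ kap i

theorem ad_def (i : Fin 2) (u : U K q) : ad i u = x K q i * u - kap i u * x K q i := rfl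

section

variable (hq : q ≠ 0)
include hq

theorem ad_mul (i : Fin 2) (u v : U K q) : ad i (u * v) = ad i u * v + kap i u * ad i v := by
  rw [ad_def, ad_def, ad_def, kap_mul hq, sub_mul, mul_sub]
  simp only [mul_assoc]
  abel

theorem kap_ad (i : Fin 2) (u : U K q) : kap i (ad i u) = (q ^ 2 : K) • ad i (kap i u) := by
  rw [ad_def, ad_def, map_sub, kap_mul hq, kap_mul hq, kap_x hq, smul_sub]
  simp [cc]

theorem kap_ad_pow (i : Fin 2) (n : ℕ) (u : U K q) :
    ∃ c : K, (ad i ^ n) (kap i u) = c • kap i ((ad i ^ n) u) := by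
  induction n with
  | zero => exact ⟨1, by simp⟩
  | succ n ih =>
    obtain ⟨c, hc⟩ := ih
    refine ⟨c * (q ^ 2)⁻¹, ?_⟩
    rw [pow_succ', Module.End.mul_apply, hc, Module.End.mul_apply, kap_ad hq, map_smul, smul_smul,
      mul_assoc, inv_mul_cancel₀ (pow_ne_zero 2 hq), mul_one]

theorem ld_ad (i : Fin 2) (u : U K q) :
    ld hq i (ad i u) = u - kap i (kap i u) + (q ^ 2 : K) • ad i (ld hq i u) := by
  rw [ad_def, ad_def, map_sub, ld_x_mul, ld_mul, ld_x, ld_kap]
  simp only [if_true, mul_one, cc, zpow_two_eq, smul_sub, smul_mul_assoc]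
  abel

theorem rd_ad (i : Fin 2) (u : U K q) (hu : rd hq i u = 0) : rd hq i (ad i u) = 0 := by
  rw [ad_def, map_sub, rd_x_mul, rd_mul, rd_x, rd_kap, hu]
  simp

omit hq in
theorem ad_one (i : Fin 2) : ad i (1 : U K q) = 0 := by rw [ad_def, kap_one]; simp

theorem ad_three {i j : Fin 2} (hij : i ≠ j) : ad i (ad i (ad i (x K q j))) = 0 := by
  have h := serre_x (K := K) (q := q) hij
  unfold serre at h
  simp only [pow_succ, pow_zero, one_mul] at h
  simp only [ad_def, map_sub, kap_mul hq, kap_x hq, cc, if_neg hij, if_true, zpow_two_eq,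
    zpow_neg_two_eq, mul_sub, sub_mul, smul_mul_assoc, mul_smul_comm, map_smul, smul_smul,
    mul_assoc, smul_sub] at h ⊢
  refine Eq.trans ?_ h
  unfold three
  match_scalars <;> field_simp <;> ring

end

/-- The subalgebra generated by the iterated q-commutators. -/
noncomputable def SA (i j : Fin 2) : Subalgebra K (U K q) :=
  Algebra.adjoin K {x K q j, ad i (x K q j), ad i (ad i (x K q j))}

theorem SA_mem0 (i j : Fin 2) : x K q j ∈ SA (q := q) i j := Algebra.subset_adjoin (by simp)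
theorem SA_mem1 (i j : Fin 2) : ad i (x K q j) ∈ SA (q := q) i j := Algebra.subset_adjoin (by simp)
theorem SA_mem2 (i j : Fin 2) : ad i (ad i (x K q j)) ∈ SA (q := q) i j :=
  Algebra.subset_adjoin (by simp)

section

variable (hq : q ≠ 0)
include hq

theorem kap_gen1 (i j : Fin 2) : kap i (ad i (x K q j)) = (q ^ 2 * q ^ cc i j : K) • ad i (x K q j) := by
  rw [kap_ad hq, kap_x hq, map_smul, smul_smul]

theorem kap_gen2 (i j : Fin 2) : kap i (ad i (ad i (x K q j))) =
    (q ^ 2 * (q ^ 2 * q ^ cc i j) : K) • ad i (ad i (x K q j)) := by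
  rw [kap_ad hq, kap_gen1 hq, map_smul, smul_smul]

theorem SA_kap {i j : Fin 2} {u : U K q} (hu : u ∈ SA i j) : kap i u ∈ SA i j := by
  unfold SA at hu
  induction hu using Algebra.adjoin_induction with
  | mem a ha =>
    rcases ha with rfl | rfl | rfl
    · rw [kap_x hq]; exact Subalgebra.smul_mem _ (SA_mem0 i j) _
    · rw [kap_gen1 hq]; exact Subalgebra.smul_mem _ (SA_mem1 i j) _
    · rw [kap_gen2 hq]; exact Subalgebra.smul_mem _ (SA_mem2 i j) _
  | algebraMap r =>
    rw [Algebra.algebraMap_eq_smul_one, map_smul, kap_one]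
    exact Subalgebra.smul_mem _ (Subalgebra.one_mem _) _
  | add a b _ _ iha ihb => rw [map_add]; exact Subalgebra.add_mem _ iha ihb
  | mul a b _ _ iha ihb => rw [kap_mul hq]; exact Subalgebra.mul_mem _ iha ihb

theorem SA_ad {i j : Fin 2} (hij : i ≠ j) {u : U K q} (hu : u ∈ SA i j) : ad i u ∈ SA i j := by
  have hu0 := hu
  unfold SA at hu
  induction hu using Algebra.adjoin_induction with
  | mem a ha =>
    rcases ha with rfl | rfl | rfl
    · exact SA_mem1 i j
    · exact SA_mem2 i j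
    · rw [ad_three hq hij]; exact Subalgebra.zero_mem _
  | algebraMap r =>
    rw [Algebra.algebraMap_eq_smul_one, map_smul, ad_one, smul_zero]
    exact Subalgebra.zero_mem _
  | add a b ha hb iha ihb => rw [map_add]; exact Subalgebra.add_mem _ (iha ha) (ihb hb)
  | mul a b ha hb iha ihb =>
    rw [ad_mul hq]
    exact Subalgebra.add_mem _ (Subalgebra.mul_mem _ (iha ha) hb)
      (Subalgebra.mul_mem _ (SA_kap hq ha) (ihb hb))

theorem SA_rd {i j : Fin 2} (hij : i ≠ j) {u : U K q} (hu : u ∈ SA i j) : rd hq i u = 0 := by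
  unfold SA at hu
  induction hu using Algebra.adjoin_induction with
  | mem a ha =>
    have h0 : rd hq i (x K q j) = 0 := by rw [rd_x, if_neg hij]
    rcases ha with rfl | rfl | rfl
    · exact h0
    · exact rd_ad hq i _ h0
    · exact rd_ad hq i _ (rd_ad hq i _ h0)
  | algebraMap r => rw [Algebra.algebraMap_eq_smul_one, map_smul, rd_one, smul_zero]
  | add a b _ _ iha ihb => rw [map_add, iha, ihb, add_zero]
  | mul a b _ _ iha ihb => rw [rd_mul, iha, ihb, mul_zero, zero_mul, add_zero]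

theorem nil_mul (i : Fin 2) (s : ℕ) : ∀ (a b : ℕ) (u v : U K q), a + b ≤ s → (ad i ^ a) u = 0 →
    (ad i ^ b) v = 0 → (ad i ^ s) (u * v) = 0 := by
  induction s with
  | zero =>
    intro a b u v hab hu _
    have ha : a = 0 := by omega
    subst ha
    have hu' : u = 0 := by simpa using hu
    rw [hu', zero_mul, map_zero]
  | succ s ih =>
    intro a b u v hab hu hv
    rcases Nat.eq_zero_or_pos a with ha | ha
    · subst ha
      have hu' : u = 0 := by simpa using hu
      rw [hu', zero_mul, map_zero]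
    rcases Nat.eq_zero_or_pos b with hb | hb
    · subst hb
      have hv' : v = 0 := by simpa using hv
      rw [hv', mul_zero, map_zero]
    obtain ⟨a, rfl⟩ : ∃ a', a = a' + 1 := ⟨a - 1, by omega⟩
    obtain ⟨b, rfl⟩ : ∃ b', b = b' + 1 := ⟨b - 1, by omega⟩
    rw [pow_succ, Module.End.mul_apply, ad_mul hq, map_add,
      ih a (b + 1) (ad i u) v (by omega) (by rwa [pow_succ, Module.End.mul_apply] at hu) hv,
      ih (a + 1) b (kap i u) (ad i v) (by omega) (by
        obtain ⟨c, hc⟩ := kap_ad_pow hq i (a + 1) u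
        rw [hc, hu, map_zero, smul_zero]) (by rwa [pow_succ, Module.End.mul_apply] at hv),
      add_zero]

omit hq in
theorem nil_mono (i : Fin 2) {n m : ℕ} (h : n ≤ m) {u : U K q} (hu : (ad i ^ n) u = 0) :
    (ad i ^ m) u = 0 := by
  obtain ⟨k, rfl⟩ := Nat.exists_eq_add_of_le h
  rw [add_comm, pow_add, Module.End.mul_apply, hu, map_zero]

theorem SA_nil {i j : Fin 2} (hij : i ≠ j) {u : U K q} (hu : u ∈ SA i j) :
    ∃ n, (ad i ^ n) u = 0 := by
  unfold SA at hu
  induction hu using Algebra.adjoin_induction with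
  | mem a ha =>
    refine ⟨3, ?_⟩
    have h3 := ad_three (K := K) (q := q) hq hij
    rcases ha with rfl | rfl | rfl
    · simpa [pow_succ] using h3
    · simp [pow_succ, h3]
    · simp [pow_succ, h3]
  | algebraMap r =>
    refine ⟨1, ?_⟩
    rw [Algebra.algebraMap_eq_smul_one, map_smul, pow_one, ad_one, smul_zero]
  | add a b _ _ iha ihb =>
    obtain ⟨n, hn⟩ := iha
    obtain ⟨m, hm⟩ := ihb
    refine ⟨max n m, ?_⟩
    rw [map_add, nil_mono i (le_max_left n m) hn, nil_mono i (le_max_right n m) hm, add_zero]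
  | mul a b _ _ iha ihb =>
    obtain ⟨n, hn⟩ := iha
    obtain ⟨m, hm⟩ := ihb
    exact ⟨n + m, nil_mul hq i _ n m a b le_rfl hn hm⟩

end

/-- Sums of elements of the subalgebra times powers of the other generator. -/
def TT (i j : Fin 2) (n : ℕ) : Submodule K (U K q) :=
  Submodule.span K {w | ∃ a ∈ SA (K := K) (q := q) i j, ∃ k < n, w = a * x K q i ^ k}

theorem TT_mono (i j : Fin 2) {n m : ℕ} (h : n ≤ m) : TT (K := K) (q := q) i j n ≤ TT i j m :=
  Submodule.span_mono (by
    rintro w ⟨a, ha, k, hk, rfl⟩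
    exact ⟨a, ha, k, hk.trans_le h, rfl⟩)

theorem TT_mk {i j : Fin 2} {n k : ℕ} (hk : k < n) {a : U K q} (ha : a ∈ SA i j) :
    a * x K q i ^ k ∈ TT (K := K) (q := q) i j n := Submodule.subset_span ⟨a, ha, k, hk, rfl⟩

section

variable (hq : q ≠ 0)
include hq

theorem TT_x {i j : Fin 2} (hij : i ≠ j) (n : ℕ) {u : U K q} (hu : u ∈ TT i j n) (l : Fin 2) :
    x K q l * u ∈ TT (K := K) (q := q) i j (n + 1) := by
  unfold TT at hu
  induction hu using Submodule.span_induction with
  | mem w hw =>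
    obtain ⟨a, ha, k, hk, rfl⟩ := hw
    by_cases hl : l = i
    · subst hl
      have h1 : x K q l * (a * x K q l ^ k) = ad l a * x K q l ^ k + kap l a * x K q l ^ (k + 1) := by
        rw [ad_def, sub_mul, pow_succ']
        simp only [mul_assoc]
        abel
      rw [h1]
      exact Submodule.add_mem _ (TT_mk (by omega) (SA_ad hq hij ha))
        (TT_mk (by omega) (SA_kap hq ha))
    · have hl' : l = j := by
        revert hij hl
        fin_cases i <;> fin_cases j <;> fin_cases l <;> simp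
      subst hl'
      rw [← mul_assoc]
      exact TT_mk (by omega) (Subalgebra.mul_mem _ (SA_mem0 i l) ha)
  | zero => rw [mul_zero]; exact Submodule.zero_mem _
  | add a b _ _ iha ihb => rw [mul_add]; exact Submodule.add_mem _ iha ihb
  | smul c a _ iha => rw [mul_smul_comm]; exact Submodule.smul_mem _ _ iha

theorem TT_all {i j : Fin 2} (hij : i ≠ j) (u : U K q) : ∃ n, u ∈ TT i j n := by
  induction u using ind with
  | h1 =>
    refine ⟨1, ?_⟩
    have h := TT_mk (K := K) (q := q) (i := i) (j := j) (n := 1) (k := 0) one_pos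
      (Subalgebra.one_mem (SA i j))
    rwa [pow_zero, mul_one] at h
  | hx l u hu =>
    obtain ⟨n, hn⟩ := hu
    exact ⟨n + 1, TT_x hq hij n hn l⟩
  | hadd u v hu hv =>
    obtain ⟨n, hn⟩ := hu
    obtain ⟨m, hm⟩ := hv
    exact ⟨max n m, Submodule.add_mem _ (TT_mono i j (le_max_left n m) hn)
      (TT_mono i j (le_max_right n m) hm)⟩
  | hsmul c u hu =>
    obtain ⟨n, hn⟩ := hu
    exact ⟨n, Submodule.smul_mem _ _ hn⟩

end

/-- The q-integer. -/
def qn (q : K) (n : ℕ) : K := ∑ k ∈ Finset.range n, (q ^ 2) ^ k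

theorem qn_succ (n : ℕ) : qn q (n + 1) = qn q n + (q ^ 2) ^ n := Finset.sum_range_succ _ _

theorem qn_succ' (n : ℕ) : qn q (n + 1) = 1 + q ^ 2 * qn q n := by
  unfold qn
  rw [Finset.sum_range_succ', Finset.mul_sum, pow_zero, add_comm]
  congr 1
  exact Finset.sum_congr rfl fun k _ => by rw [pow_succ']

theorem qn_ne (h1 : ∀ n : ℕ, 0 < n → q ^ n ≠ 1) (n : ℕ) : qn q (n + 1) ≠ 0 := by
  intro h
  have h2 := geom_sum_mul (q ^ 2) (n + 1)
  unfold qn at h
  rw [h, zero_mul, ← pow_mul] at h2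
  exact h1 (2 * (n + 1)) (by omega) (sub_eq_zero.1 h2.symm)

section

variable (hq : q ≠ 0)

include hq in
theorem kap_pow (i : Fin 2) (k : ℕ) :
    kap i (x K q i ^ k) = ((q ^ 2) ^ k : K) • x K q i ^ k := by
  induction k with
  | zero => rw [pow_zero, kap_one, pow_zero, one_smul]
  | succ k ih =>
    rw [pow_succ', kap_mul hq, ih, kap_x hq]
    simp only [cc, if_true, zpow_two_eq, smul_mul_assoc, mul_smul_comm, smul_smul]
    rw [← pow_succ, ← pow_succ']

theorem rd_pow (i : Fin 2) (k : ℕ) :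
    rd hq i (x K q i ^ (k + 1)) = qn q (k + 1) • x K q i ^ k := by
  induction k with
  | zero => simp [qn, rd_x]
  | succ k ih =>
    rw [pow_succ', rd_x_mul, ih, if_pos rfl, kap_pow hq, qn_succ (k + 1), add_smul, mul_smul_comm,
      ← pow_succ']

theorem rd_TT {i j : Fin 2} (hij : i ≠ j) (n : ℕ) {u : U K q} (hu : u ∈ TT i j (n + 1)) :
    rd hq i u ∈ TT (K := K) (q := q) i j n := by
  unfold TT at hu
  induction hu using Submodule.span_induction with
  | mem w hw =>
    obtain ⟨a, ha, k, hk, rfl⟩ := hw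
    rw [rd_mul, SA_rd hq hij ha, zero_mul, add_zero]
    rcases Nat.eq_zero_or_pos k with h | h
    · subst h; rw [pow_zero, rd_one, mul_zero]; exact Submodule.zero_mem _
    · obtain ⟨k, rfl⟩ : ∃ k', k = k' + 1 := ⟨k - 1, by omega⟩
      rw [rd_pow, mul_smul_comm]
      exact Submodule.smul_mem _ _ (TT_mk (by omega) ha)
  | zero => rw [map_zero]; exact Submodule.zero_mem _
  | add a b _ _ iha ihb => rw [map_add]; exact Submodule.add_mem _ iha ihb
  | smul c a _ iha => rw [map_smul]; exact Submodule.smul_mem _ _ iha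

theorem TT_zero (i j : Fin 2) {u : U K q} (hu : u ∈ TT i j 0) : u = 0 := by
  unfold TT at hu
  have : {w | ∃ a ∈ SA (K := K) (q := q) i j, ∃ k < 0, w = a * x K q i ^ k} = ∅ := by
    ext w; simp
  rw [this, Submodule.span_empty] at hu
  simpa using hu

theorem rd_TT_pow {i j : Fin 2} (hij : i ≠ j) (n : ℕ) : ∀ {u : U K q}, u ∈ TT i j n →
    (rd hq i ^ n) u = 0 := by
  induction n with
  | zero => intro u hu; rw [TT_zero i j hu, map_zero]
  | succ n ih =>
    intro u hu
    rw [pow_succ, Module.End.mul_apply]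
    exact ih (rd_TT hq hij n hu)

theorem rd_lead {i j : Fin 2} (hij : i ≠ j) (h1 : ∀ n : ℕ, 0 < n → q ^ n ≠ 1) (n : ℕ) :
    ∃ c : K, c ≠ 0 ∧ ∀ a ∈ SA (K := K) (q := q) i j, (rd hq i ^ n) (a * x K q i ^ n) = c • a := by
  induction n with
  | zero => exact ⟨1, one_ne_zero, fun a _ => by simp⟩
  | succ n ih =>
    obtain ⟨c, hc, h⟩ := ih
    refine ⟨qn q (n + 1) * c, mul_ne_zero (qn_ne h1 n) hc, fun a ha => ?_⟩
    rw [pow_succ, Module.End.mul_apply, rd_mul, SA_rd hq hij ha, zero_mul, add_zero, rd_pow,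
      mul_smul_comm, map_smul, h a ha, smul_smul]

theorem TT_succ (i j : Fin 2) (n : ℕ) {u : U K q} (hu : u ∈ TT i j (n + 1)) :
    ∃ v ∈ TT (K := K) (q := q) i j n, ∃ a ∈ SA (K := K) (q := q) i j, u = v + a * x K q i ^ n := by
  unfold TT at hu
  induction hu using Submodule.span_induction with
  | mem w hw =>
    obtain ⟨a, ha, k, hk, rfl⟩ := hw
    rcases Nat.lt_succ_iff_lt_or_eq.1 hk with h | h
    · exact ⟨_, TT_mk h ha, 0, Subalgebra.zero_mem _, by simp⟩
    · subst h; exact ⟨0, Submodule.zero_mem _, a, ha, by simp⟩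
  | zero => exact ⟨0, Submodule.zero_mem _, 0, Subalgebra.zero_mem _, by simp⟩
  | add a b _ _ iha ihb =>
    obtain ⟨v, hv, c, hc, rfl⟩ := iha
    obtain ⟨v', hv', c', hc', rfl⟩ := ihb
    exact ⟨v + v', Submodule.add_mem _ hv hv', c + c', Subalgebra.add_mem _ hc hc', by
      rw [add_mul]; abel⟩
  | smul r a _ iha =>
    obtain ⟨v, hv, c, hc, rfl⟩ := iha
    exact ⟨r • v, Submodule.smul_mem _ _ hv, r • c, Subalgebra.smul_mem _ hc _, by
      rw [smul_add, smul_mul_assoc]⟩

/-- The kernel of the right skew derivation is the subalgebra. -/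
theorem mem_SA_of_rd {i j : Fin 2} (hij : i ≠ j) (h1 : ∀ n : ℕ, 0 < n → q ^ n ≠ 1) (n : ℕ) :
    ∀ {u : U K q}, u ∈ TT i j n → rd hq i u = 0 → u ∈ SA i j := by
  induction n with
  | zero => intro u hu _; rw [TT_zero i j hu]; exact Subalgebra.zero_mem _
  | succ n ih =>
    intro u hu hr
    obtain ⟨v, hv, a, ha, rfl⟩ := TT_succ i j n hu
    rcases Nat.eq_zero_or_pos n with hn | hn
    · subst hn
      rw [TT_zero i j hv, zero_add, pow_zero, mul_one]
      exact ha
    · have h2 : (rd hq i ^ n) (v + a * x K q i ^ n) = 0 := by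
        obtain ⟨m, rfl⟩ : ∃ m, n = m + 1 := ⟨n - 1, by omega⟩
        rw [pow_succ, Module.End.mul_apply, hr, map_zero]
      obtain ⟨c, hc, h⟩ := rd_lead hq hij h1 n
      rw [map_add, rd_TT_pow hq hij n hv, zero_add, h a ha] at h2
      have ha0 : a = 0 := (smul_eq_zero.1 h2).resolve_left hc
      subst ha0
      rw [zero_mul, add_zero] at hr ⊢
      exact ih hv hr

theorem ad_nil {i j : Fin 2} (hij : i ≠ j) (h1 : ∀ n : ℕ, 0 < n → q ^ n ≠ 1) {u : U K q}
    (hu : rd hq i u = 0) : ∃ n, (ad i ^ n) u = 0 := by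
  obtain ⟨n, hn⟩ := TT_all hq hij u
  exact SA_nil hq hij (mem_SA_of_rd hq hij h1 n hn hu)

end

end Pool.Agent.L5helper22.QC
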