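import Pool.Agent.L5helper22.QC.Cop

/-!
# Nondegeneracy and the center
-/

set_option autoImplicit false

open scoped TensorProduct

namespace Pool.Agent.L5helper22.QC

variable {K : Type*} [Field K] {q : K}

/-- A tensor is zero if it lies in a summand on which the skew derivations have no common kernel. -/
theorem tensor_zero {V : Type*} [AddCommGroup V] [Module K V] {W : Type*} [AddCommGroup W]
    [Module K W] {ι : Type*} {W' : ι → Type*} [∀ k, AddCommGroup (W' k)] [∀ k, Module K (W' k)]
    (f : ∀ k, V →ₗ[K] W' k) (hf : ∀ v, (∀ k, f k v = 0) → v = 0) (t : V ⊗[K] W)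
    (ht : ∀ k, (f k).rTensor W t = 0) : t = 0 := by
  classical
  let b := Module.Basis.ofVectorSpace K W
  have key : ∀ (k : ι) (t : V ⊗[K] W) (j), (TensorProduct.equivFinsuppOfBasisRight b
      ((f k).rTensor W t)) j = f k ((TensorProduct.equivFinsuppOfBasisRight b t) j) := by
    intro k t j
    induction t using TensorProduct.induction_on with
    | zero => simp
    | tmul u v =>
      rw [LinearMap.rTensor_tmul, TensorProduct.equivFinsuppOfBasisRight_apply_tmul_apply,
        TensorProduct.equivFinsuppOfBasisRight_apply_tmul_apply, map_smul]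
    | add s t hs ht => simp only [map_add, Finsupp.add_apply, hs, ht]
  have h0 : TensorProduct.equivFinsuppOfBasisRight b t = 0 := by
    ext j
    rw [Finsupp.zero_apply]
    apply hf
    intro k
    rw [← key, ht k, map_zero, Finsupp.zero_apply]
  simpa using h0

theorem height_one (hq : q ≠ 0) (u : U K q) : ∀ h : ℤ × ℤ, ht h = 1 →
    (∀ i, ld hq i (pr h u) = 0) → pr h u = 0 := by
  have key : ∀ h : ℤ × ℤ, ht h = 1 →
      pr h u = x K q 0 * ld hq 0 (pr h u) + x K q 1 * ld hq 1 (pr h u) := by
    induction u using ind with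
    | h1 =>
      intro h hh
      rw [pr_one, if_neg (by rintro rfl; rw [ht_zero] at hh; omega)]
      simp
    | hx i u _ =>
      intro h hh
      have hc : ∃ c : K, pr (h - al i) u = c • 1 := by
        by_cases h0 : h - al i = 0
        · obtain ⟨c, hc⟩ := pr_zero_mem u
          exact ⟨c, by rw [h0, hc, Algebra.algebraMap_eq_smul_one]⟩
        · exact ⟨0, by rw [pr_nonpos _ _ (by rw [ht_sub_al]; omega) h0, zero_smul]⟩
      obtain ⟨c, hc⟩ := hc
      rw [pr_x_mul, hc, mul_smul_comm, mul_one, map_smul, map_smul, ld_x, ld_x]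
      fin_cases i <;> simp
    | hadd u v hu hv =>
      intro h hh
      have h1 := hu h hh
      have h2 := hv h hh
      rw [map_add, map_add, map_add, mul_add, mul_add]
      nth_rewrite 1 [h1, h2]
      abel
    | hsmul c u hu =>
      intro h hh
      have h1 := hu h hh
      rw [map_smul, map_smul, map_smul, mul_smul_comm, mul_smul_comm, ← smul_add, ← h1]
  intro h hh hl
  rw [key h hh, hl, hl, mul_zero, mul_zero, add_zero]

theorem zpow_ne_one (hq : q ≠ 0) (h1 : ∀ n : ℕ, 0 < n → q ^ n ≠ 1) {m : ℤ} (hm : m ≠ 0) :
    (q ^ m : K) ≠ 1 := by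
  intro h
  rcases lt_or_gt_of_ne hm with h' | h'
  · obtain ⟨n, hn⟩ := Int.eq_ofNat_of_zero_le (show 0 ≤ -m by omega)
    have h9 : (q ^ (-m) : K) = 1 := by rw [zpow_neg, h, inv_one]
    rw [hn, zpow_natCast] at h9
    exact h1 n (by omega) h9
  · obtain ⟨n, hn⟩ := Int.eq_ofNat_of_zero_le (show 0 ≤ m by omega)
    rw [hn, zpow_natCast] at h
    exact h1 n (by omega) h

/-- Nondegeneracy: a homogeneous element of positive height which is killed by the two left skew
derivations is zero. -/
theorem nondeg (hq : q ≠ 0) (h1 : ∀ n : ℕ, 0 < n → q ^ n ≠ 1) (N : ℕ) : 0 < N →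
    ∀ (h : ℤ × ℤ), ht h = N → ∀ z : U K q, pr h z = z → (∀ i, ld hq i z = 0) → z = 0 := by
  induction N using Nat.strong_induction_on with
  | _ N ih =>
  intro hN h hh z hz hl
  rcases Nat.lt_or_ge 1 N with hN1 | hN1
  swap
  · have hN' : N = 1 := by omega
    subst hN'
    rw [← hz]
    refine height_one hq z h (by exact_mod_cast hh) fun i => ?_
    rw [hz, hl]
  -- the right skew derivations vanish too
  have hr : ∀ j, rd hq j z = 0 := by
    intro j
    refine ih (N - 1) (by omega) (by omega) (h - al j) (by rw [ht_sub_al]; omega) _ ?_ ?_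
    · rw [← rd_pr, hz]
    · intro i
      rw [ld_rd, hl, map_zero]
  by_contra hz0
  have hb0 := bf_nonpos hq (show (0 : Fin 2) ≠ 1 by decide) h1 hz (hl 0) (hr 0) hz0
  have hb1 := bf_nonpos hq (show (1 : Fin 2) ≠ 0 by decide) h1 hz (hl 1) (hr 1) hz0
  have hee : ee h = -N := by
    simp only [bf, if_true, one_ne_zero, if_false] at hb0 hb1
    have h12 : h.1 = h.2 := by omega
    unfold ht at hh
    unfold ee
    rw [h12] at hh ⊢
    rw [sub_self]
    omega
  have hh0 : h ≠ 0 := by rintro rfl; rw [ht_zero] at hh; omega
  -- the coproduct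
  have hcop : cop hq z - z ⊗ₜ[K] 1 - 1 ⊗ₜ[K] z = 0 := by
    refine tensor_zero (fun g : ℤ × ℤ => pr (K := K) (q := q) g) (fun v hv => eq_zero_of_pr hv) _
      fun g => ?_
    change Pg g _ = 0
    rw [map_sub, map_sub, Pg_tmul, Pg_tmul, pr_one]
    have hgz : ht g ≠ N → pr g z = 0 := by
      intro hne
      rw [← hz, pr_pr, if_neg]
      rintro rfl
      exact hne hh
    rcases lt_trichotomy (ht g) 0 with hg | hg | hg
    · rw [Pg_neg hq z g hg, hgz (by omega), if_neg (by rintro rfl; rw [ht_zero] at hg; omega)]
      simp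
    · rw [Pg_zero hq z g hg, hgz (by omega)]
      split_ifs <;> simp
    · rw [if_neg (by rintro rfl; rw [ht_zero] at hg; omega), TensorProduct.zero_tmul, sub_zero]
      rcases lt_trichotomy (ht g) N with hgN | hgN | hgN
      · rw [hgz (by omega), TensorProduct.zero_tmul, sub_zero]
        obtain ⟨n, hn⟩ := Int.eq_ofNat_of_zero_le hg.le
        -- a tensor in the component of degree `g`
        refine tensor_zero (ι := Option (Fin 2)) (W' := fun _ => U K q)
          (fun k => match k with
            | none => LinearMap.id - pr g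
            | some i => ld hq i) (fun v hv => ?_) _ fun k => ?_
        · have hv0 := hv none
          have hv1 := fun i => hv (some i)
          simp only [LinearMap.sub_apply, LinearMap.id_apply] at hv0
          exact ih n (by omega) (by omega) g (by omega) v (sub_eq_zero.1 hv0).symm hv1
        · cases k with
          | none =>
            have e : ∀ t : U K q ⊗[K] U K q, Pg g (Pg g t) = Pg g t := by
              intro t
              induction t using TensorProduct.induction_on with
              | zero => simp
              | tmul u v => rw [Pg_tmul, Pg_tmul, pr_self]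
              | add s t hs ht => simp only [map_add, hs, ht]
            change LinearMap.rTensor (U K q) (LinearMap.id - pr g) (Pg g (cop hq z)) = 0
            rw [LinearMap.rTensor_sub, LinearMap.sub_apply, LinearMap.rTensor_id,
              LinearMap.id_apply]
            change _ - Pg g (Pg g (cop hq z)) = 0
            rw [e, sub_self]
          | some i =>
            have e : ∀ t : U K q ⊗[K] U K q, (ld hq i).rTensor (U K q) (Pg g t) =
                Pg (g - al i) ((ld hq i).rTensor (U K q) t) := by
              intro t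
              induction t using TensorProduct.induction_on with
              | zero => simp
              | tmul u v =>
                rw [Pg_tmul, LinearMap.rTensor_tmul, LinearMap.rTensor_tmul, Pg_tmul, ld_pr]
              | add s t hs ht => simp only [map_add, hs, ht]
            change LinearMap.rTensor (U K q) (ld hq i) (Pg g (cop hq z)) = 0
            rw [e, ld_cop, hl, map_zero, map_zero]
      · have := Pg_top hq z g h (by omega)
        rw [hz] at this
        rw [this, sub_self]
      · have := Pg_big hq z g h (by omega)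
        rw [hz] at this
        rw [this, hgz (by omega), TensorProduct.zero_tmul, sub_zero]
  -- the antipode
  have hM : anti z = -z := by
    have h2 : cop hq z = z ⊗ₜ[K] 1 + 1 ⊗ₜ[K] z := by
      rw [sub_sub, sub_eq_zero] at hcop
      exact hcop
    have h3 := MM_cop hq z
    rw [h2, map_add, MM_tmul, MM_tmul, anti_one, mul_one, one_mul] at h3
    have h4 : pr 0 z = 0 := by rw [← hz, pr_pr, if_neg hh0.symm]
    rw [h4] at h3
    exact eq_neg_of_add_eq_zero_left h3
  have hA : anti z = ((-1 : K) ^ ht h * q ^ ee h) • tau z := by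
    have := anti_pr h z
    rwa [hz] at this
  obtain ⟨w, hw⟩ : ∃ w : K, w = (-1 : K) ^ ht h * q ^ ee h := ⟨_, rfl⟩
  rw [← hw, hM] at hA
  have hB : -tau z = w • z := by
    have := congrArg tau hA
    rwa [map_neg, map_smul, tau_tau] at this
  have hC : (w * w) • z = z := by
    rw [mul_smul, ← hB, smul_neg, ← hA, neg_neg]
  have hD : w * w = q ^ (2 * ee h) := by
    rw [hw]
    have e1 : ((-1 : K) ^ ht h) * ((-1 : K) ^ ht h) = 1 := by
      rw [← mul_zpow]; simp
    have e2 : (q ^ ee h) * (q ^ ee h) = (q ^ (2 * ee h) : K) := by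
      rw [← zpow_add₀ hq]; congr 1; ring
    rw [← e2]
    linear_combination (q ^ ee h * q ^ ee h) * e1
  have hE : (w * w - 1) • z = 0 := by rw [sub_smul, hC, one_smul, sub_self]
  rcases smul_eq_zero.1 hE with h5 | h5
  · rw [hD] at h5
    exact zpow_ne_one hq h1 (by rw [hee]; omega) (sub_eq_zero.1 h5)
  · exact hz0 h5

/-- An element which commutes with both generators is a scalar. -/
theorem central (hq : q ≠ 0) (h1 : ∀ n : ℕ, 0 < n → q ^ n ≠ 1) (z : U K q)
    (hz : ∀ i, x K q i * z = z * x K q i) : ∃ c : K, z = algebraMap K (U K q) c := by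
  have hcomp : ∀ (h : ℤ × ℤ) (i : Fin 2), x K q i * pr h z = pr h z * x K q i := by
    intro h i
    have e1 := pr_x_mul (h + al i) i z
    have e2 := pr_mul_x (h + al i) i z
    rw [add_sub_cancel_right] at e1 e2
    rw [← e1, ← e2, hz]
  have hzero : ∀ h : ℤ × ℤ, h ≠ 0 → pr h z = 0 := by
    intro h hh0
    by_cases hh : ht h ≤ 0
    · exact pr_nonpos h z hh hh0
    · push Not at hh
      by_contra hne
      obtain ⟨h2, h3⟩ := bf_of_central hq 0 h1 (pr_self h z) hne (hcomp h 0)
      obtain ⟨h4, h5⟩ := bf_of_central hq 1 h1 (pr_self h z) hne (hcomp h 1)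
      have e0 : bf 0 h = 0 := by
        simp only [bf, if_true, one_ne_zero, if_false] at h2 h4 ⊢
        omega
      have e1 : bf 1 h = 0 := by
        simp only [bf, if_true, one_ne_zero, if_false] at h2 h4 ⊢
        omega
      obtain ⟨n, hn⟩ := Int.eq_ofNat_of_zero_le hh.le
      refine hne (nondeg hq h1 n (by omega) h (by omega) _ (pr_self h z) fun i => ?_)
      fin_cases i
      · exact h3 e0
      · exact h5 e1
  obtain ⟨c, hc⟩ := pr_zero_mem z
  refine ⟨c, ?_⟩
  have : z - pr 0 z = 0 := by
    apply eq_zero_of_pr
    intro g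
    rw [map_sub, pr_pr]
    by_cases hg : g = 0
    · subst hg; rw [if_pos rfl, sub_self]
    · rw [if_neg hg, sub_zero]; exact hzero g hg
  rw [← hc]
  exact sub_eq_zero.1 this

end Pool.Agent.L5helper22.QC
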