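import Pool.Agent.L5helper22.QC.Wt

/-!
# The skew derivations
-/

set_option autoImplicit false

namespace Pool.Agent.L5helper22.QC

variable {K : Type*} [Field K] {q : K}

theorem serre_smul {E : Type*} [Ring E] [Algebra K E] (s t : K) (a b : E) :
    serre K q (s • a) (t • b) = (s ^ 3 * t) • serre K q a b := by
  unfold serre
  simp only [smul_pow, smul_mul_assoc, mul_smul_comm, smul_smul, smul_sub, smul_add]
  match_scalars <;> ring

theorem serre_mat1 {E : Type*} [Ring E] [Algebra K E] (hq : q ≠ 0) (a b : E)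
    (hab : serre K q a b = 0) :
    serre K q (!![(q ^ 2 : K) • a, 1; 0, a] : Matrix (Fin 2) (Fin 2) E)
      !![((q ^ 2)⁻¹ : K) • b, 0; 0, b] = 0 := by
  unfold serre at hab ⊢
  simp only [pow_succ, pow_zero, one_mul] at hab
  have h00 := congrArg (fun v => ((q ^ 2) ^ 3 * (q ^ 2)⁻¹ : K) • v) hab
  simp only [smul_zero] at h00
  ext i j
  fin_cases i <;> fin_cases j
  · refine Eq.trans ?_ h00
    simp [pow_succ]
    match_scalars <;> ring
  · simp [pow_succ, three, mul_assoc, mul_add, add_mul]
    match_scalars <;> field_simp <;> ring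
  · simp [pow_succ]
  · simpa [pow_succ] using hab

theorem serre_mat2 {E : Type*} [Ring E] [Algebra K E] (hq : q ≠ 0) (a b : E)
    (hab : serre K q b a = 0) :
    serre K q (!![((q ^ 2)⁻¹ : K) • b, 0; 0, b] : Matrix (Fin 2) (Fin 2) E)
      !![(q ^ 2 : K) • a, 1; 0, a] = 0 := by
  unfold serre at hab ⊢
  simp only [pow_succ, pow_zero, one_mul] at hab
  have h00 := congrArg (fun v => (((q ^ 2)⁻¹) ^ 3 * q ^ 2 : K) • v) hab
  simp only [smul_zero] at h00
  ext i j
  fin_cases i <;> fin_cases j
  · refine Eq.trans ?_ h00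
    simp [pow_succ]
    match_scalars <;> ring
  · simp [pow_succ, three, mul_assoc]
    match_scalars
    field_simp
    ring
  · simp [pow_succ]
  · simpa [pow_succ] using hab

theorem zpow_two_eq : (q ^ (2 : ℤ) : K) = q ^ 2 := by norm_cast

theorem zpow_neg_two_eq : (q ^ (-2 : ℤ) : K) = (q ^ 2)⁻¹ := by
  rw [zpow_neg]; norm_cast

section

variable (hq : q ≠ 0)

/-- The algebra map which contains the left skew derivation. -/
noncomputable def Lm (i : Fin 2) : U K q →ₐ[K] Matrix (Fin 2) (Fin 2) (U K q) :=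
  lift (fun j => !![(q ^ cc i j : K) • x K q j, if i = j then 1 else 0; 0, x K q j])
    (by
      fin_cases i
      · have h := serre_mat1 hq (x K q 0) (x K q 1) serre_x01
        simpa [cc, zpow_two_eq, zpow_neg_two_eq] using h
      · have h := serre_mat2 hq (x K q 1) (x K q 0) serre_x01
        simpa [cc, zpow_two_eq, zpow_neg_two_eq] using h)
    (by
      fin_cases i
      · have h := serre_mat2 hq (x K q 0) (x K q 1) serre_x10
        simpa [cc, zpow_two_eq, zpow_neg_two_eq] using h
      · have h := serre_mat1 hq (x K q 1) (x K q 0) serre_x10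
        simpa [cc, zpow_two_eq, zpow_neg_two_eq] using h)

theorem Lm_x (i j : Fin 2) : Lm hq i (x K q j) =
    !![(q ^ cc i j : K) • x K q j, if i = j then 1 else 0; 0, x K q j] := by
  unfold Lm; rw [lift_x]

/-- The scaling automorphism. -/
noncomputable def kap (i : Fin 2) : U K q →ₗ[K] U K q := wt (fun g => q ^ bf i g)

theorem kap_one (i : Fin 2) : kap i (1 : U K q) = 1 := by
  unfold kap; rw [wt_one_el, bf_zero, zpow_zero, one_smul]

theorem kap_x_mul (hq : q ≠ 0) (i j : Fin 2) (u : U K q) :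
    kap i (x K q j * u) = (q ^ cc i j : K) • (x K q j * kap i u) := by
  unfold kap
  rw [wt_x_mul, ← mul_smul_comm, ← wt_smul]
  congr 3
  funext g
  rw [bf_add, bf_al, zpow_add₀ hq]

theorem kap_x (hq : q ≠ 0) (i j : Fin 2) : kap i (x K q j) = (q ^ cc i j : K) • x K q j := by
  have h := kap_x_mul hq i j 1
  rwa [mul_one, kap_one, mul_one] at h

theorem kap_mul (hq : q ≠ 0) (i : Fin 2) (u v : U K q) : kap i (u * v) = kap i u * kap i v := by
  induction u using ind with
  | h1 => rw [one_mul, kap_one, one_mul]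
  | hx j u hu => rw [mul_assoc, kap_x_mul hq, hu, kap_x_mul hq, smul_mul_assoc, mul_assoc]
  | hadd u u' hu hu' => rw [add_mul, map_add, hu, hu', map_add, add_mul]
  | hsmul c u hu => rw [smul_mul_assoc, map_smul, hu, map_smul, smul_mul_assoc]

/-- The left skew derivation. -/
noncomputable def ld (i : Fin 2) : U K q →ₗ[K] U K q where
  toFun u := Lm hq i u 0 1
  map_add' u v := by simp
  map_smul' c u := by simp

theorem ld_def (i : Fin 2) (u : U K q) : ld hq i u = Lm hq i u 0 1 := rfl

theorem Lm_eq (i : Fin 2) (u : U K q) : Lm hq i u = !![kap i u, ld hq i u; 0, u] := by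
  have h : Lm hq i u 0 0 = kap i u ∧ Lm hq i u 1 0 = 0 ∧ Lm hq i u 1 1 = u := by
    induction u using ind with
    | h1 => simp [kap_one]
    | hx j u hu =>
      rw [map_mul, Lm_x, kap_x_mul hq]
      simp [Matrix.mul_apply, Fin.sum_univ_two, hu.1, hu.2.1, hu.2.2]
    | hadd u v hu hv => simp [hu.1, hu.2.1, hu.2.2, hv.1, hv.2.1, hv.2.2]
    | hsmul c u hu => simp [hu.1, hu.2.1, hu.2.2]
  ext a b
  fin_cases a <;> fin_cases b
  · simpa using h.1
  · simp [ld_def]
  · simpa using h.2.1
  · simpa using h.2.2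

theorem ld_one (i : Fin 2) : ld hq i 1 = 0 := by simp [ld_def]

theorem ld_x (i j : Fin 2) : ld hq i (x K q j) = if i = j then 1 else 0 := by
  rw [ld_def, Lm_x]; simp

theorem ld_mul (i : Fin 2) (u v : U K q) :
    ld hq i (u * v) = ld hq i u * v + kap i u * ld hq i v := by
  rw [ld_def, map_mul, Lm_eq, Lm_eq]
  simp [Matrix.mul_apply, Fin.sum_univ_two, add_comm]

theorem ld_x_mul (i j : Fin 2) (u : U K q) :
    ld hq i (x K q j * u) = (if i = j then u else 0) + (q ^ cc i j : K) • (x K q j * ld hq i u) := by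
  rw [ld_mul, ld_x, kap_x hq, smul_mul_assoc]
  split_ifs <;> simp

end

end Pool.Agent.L5helper22.QC
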