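import Pool.Agent.L5helper22.QC.Skew

/-!
# The anti-automorphism, the right skew derivations and the antipode
-/

set_option autoImplicit false

namespace Pool.Agent.L5helper22.QC

open MulOpposite

variable {K : Type*} [Field K] {q : K}

theorem serre_op {E : Type*} [Ring E] [Algebra K E] (a b : E) :
    serre K q (op a) (op b) = - op (serre K q a b) := by
  unfold serre
  simp only [op_sub, op_add, op_mul, op_pow, op_smul, mul_assoc]
  abel

/-- The anti-automorphism, as an algebra map to the opposite algebra. -/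
noncomputable def tauHom : U K q →ₐ[K] (U K q)ᵐᵒᵖ :=
  lift (fun i => op (x K q i)) (by rw [serre_op, serre_x01, op_zero, neg_zero])
    (by rw [serre_op, serre_x10, op_zero, neg_zero])

/-- The anti-automorphism which fixes the generators. -/
noncomputable def tau : U K q →ₗ[K] U K q where
  toFun u := unop (tauHom u)
  map_add' u v := by simp
  map_smul' c u := by simp

theorem tau_def (u : U K q) : tau u = unop (tauHom u) := rfl

theorem tau_one : tau (1 : U K q) = 1 := by simp [tau_def]

theorem tau_x (i : Fin 2) : tau (x K q i) = x K q i := by simp [tau_def, tauHom]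

theorem tau_mul (u v : U K q) : tau (u * v) = tau v * tau u := by simp [tau_def]

theorem tau_x_mul (i : Fin 2) (u : U K q) : tau (x K q i * u) = tau u * x K q i := by
  rw [tau_mul, tau_x]

theorem tau_tau (u : U K q) : tau (tau u) = u := by
  induction u using ind with
  | h1 => rw [tau_one, tau_one]
  | hx i u hu => rw [tau_x_mul, tau_mul, tau_x, hu]
  | hadd u v hu hv => rw [map_add, map_add, hu, hv]
  | hsmul c u hu => rw [map_smul, map_smul, hu]

theorem pr_tau (g : ℤ × ℤ) (u : U K q) : pr g (tau u) = tau (pr g u) := by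
  induction u using ind generalizing g with
  | h1 => rw [tau_one, pr_one]; split_ifs <;> simp [tau_one]
  | hx i u hu => rw [tau_x_mul, pr_mul_x, hu, pr_x_mul, tau_x_mul]
  | hadd u v hu hv => simp only [map_add, hu, hv]
  | hsmul c u hu => simp only [map_smul, hu]

theorem wt_mul_x (f : ℤ × ℤ → K) (i : Fin 2) (u : U K q) :
    wt f (u * x K q i) = wt (fun g => f (al i + g)) u * x K q i := by
  induction u using ind generalizing f with
  | h1 => rw [one_mul, wt_one_el, smul_mul_assoc, one_mul, ← mul_one (x K q i), wt_x_mul,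
      wt_one_el, mul_one, mul_smul_comm, mul_one]
  | hx j u hu =>
    rw [mul_assoc, wt_x_mul, hu, wt_x_mul, mul_assoc]
    congr 4
    funext g
    rw [add_left_comm]
  | hadd u v hu hv => rw [add_mul, map_add, map_add, hu, hv, add_mul]
  | hsmul c u hu => rw [smul_mul_assoc, map_smul, map_smul, hu, smul_mul_assoc]

theorem wt_tau (f : ℤ × ℤ → K) (u : U K q) : wt f (tau u) = tau (wt f u) := by
  induction u using ind generalizing f with
  | h1 => rw [tau_one, wt_one_el, map_smul, tau_one]
  | hx i u hu => rw [tau_x_mul, wt_mul_x, hu, wt_x_mul, tau_x_mul]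
  | hadd u v hu hv => simp only [map_add, hu, hv]
  | hsmul c u hu => simp only [map_smul, hu]

theorem kap_tau (i : Fin 2) (u : U K q) : kap i (tau u) = tau (kap i u) := wt_tau _ _

section

variable (hq : q ≠ 0)

/-- The right skew derivation. -/
noncomputable def rd (i : Fin 2) : U K q →ₗ[K] U K q := tau ∘ₗ ld hq i ∘ₗ tau

theorem rd_def (i : Fin 2) (u : U K q) : rd hq i u = tau (ld hq i (tau u)) := rfl

theorem rd_mul (i : Fin 2) (u v : U K q) :
    rd hq i (u * v) = u * rd hq i v + rd hq i u * kap i v := by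
  rw [rd_def, tau_mul, ld_mul, map_add, tau_mul, tau_mul, tau_tau, kap_tau, tau_tau,
    rd_def, rd_def]

theorem rd_x (i j : Fin 2) : rd hq i (x K q j) = if i = j then 1 else 0 := by
  rw [rd_def, tau_x, ld_x]
  split_ifs
  · exact tau_one
  · exact map_zero _

theorem rd_one (i : Fin 2) : rd hq i 1 = 0 := by rw [rd_def, tau_one, ld_one, map_zero]

theorem rd_x_mul (i j : Fin 2) (u : U K q) :
    rd hq i (x K q j * u) = x K q j * rd hq i u + if i = j then kap i u else 0 := by
  rw [rd_mul, rd_x]
  split_ifs <;> simp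

/-- `ld` lowers the degree. -/
theorem ld_wt (i : Fin 2) (f : ℤ × ℤ → K) (u : U K q) :
    ld hq i (wt f u) = wt (fun g => f (al i + g)) (ld hq i u) := by
  induction u using ind generalizing f with
  | h1 => rw [wt_one_el, map_smul, ld_one, map_zero, smul_zero]
  | hx j u hu =>
    rw [wt_x_mul, ld_x_mul, ld_x_mul, hu, map_add, map_smul, wt_x_mul]
    congr 1
    · by_cases h : i = j
      · subst h; rw [if_pos rfl, if_pos rfl]
      · rw [if_neg h, if_neg h, map_zero]
    · congr 4
      funext g
      rw [add_left_comm]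
  | hadd u v hu hv => simp only [map_add, hu, hv]
  | hsmul c u hu => simp only [map_smul, hu]

theorem rd_wt (i : Fin 2) (f : ℤ × ℤ → K) (u : U K q) :
    rd hq i (wt f u) = wt (fun g => f (al i + g)) (rd hq i u) := by
  rw [rd_def, rd_def, ← wt_tau, ld_wt, wt_tau]

theorem ld_kap (i j : Fin 2) (u : U K q) :
    ld hq i (kap j u) = (q ^ cc i j : K) • kap j (ld hq i u) := by
  unfold kap
  rw [ld_wt, ← wt_smul]
  congr 2
  funext g
  rw [bf_add, bf_al, zpow_add₀ hq, cc_comm]

theorem rd_kap (i j : Fin 2) (u : U K q) :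
    rd hq i (kap j u) = (q ^ cc i j : K) • kap j (rd hq i u) := by
  unfold kap
  rw [rd_wt, ← wt_smul]
  congr 2
  funext g
  rw [bf_add, bf_al, zpow_add₀ hq, cc_comm]

theorem ld_pr (i : Fin 2) (g : ℤ × ℤ) (u : U K q) : ld hq i (pr g u) = pr (g - al i) (ld hq i u) := by
  rw [pr_eq_wt, ld_wt, pr_eq_wt]
  congr 2
  funext h
  by_cases h' : h = g - al i
  · rw [if_pos h', if_pos (by rw [h']; abel)]
  · rw [if_neg h', if_neg (by rintro rfl; exact h' (by abel))]

theorem rd_pr (i : Fin 2) (g : ℤ × ℤ) (u : U K q) : rd hq i (pr g u) = pr (g - al i) (rd hq i u) := by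
  rw [rd_def, rd_def, ← pr_tau, ld_pr, pr_tau]

/-- Left and right skew derivations commute. -/
theorem ld_rd (i j : Fin 2) (u : U K q) : ld hq i (rd hq j u) = rd hq j (ld hq i u) := by
  induction u using ind with
  | h1 => rw [rd_one, ld_one, map_zero, map_zero]
  | hx k u hu =>
    rw [rd_x_mul, map_add, ld_x_mul, ld_x_mul, map_add, map_smul, rd_x_mul, hu, smul_add]
    by_cases h1 : i = k
    · subst h1
      by_cases h2 : j = i
      · subst h2
        simp only [if_true, ld_kap]
        abel
      · simp only [if_true, if_neg h2, map_zero, smul_zero, add_zero]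
    · by_cases h2 : j = k
      · subst h2
        simp only [if_true, if_neg h1, ld_kap, map_zero]
        abel
      · simp only [if_neg h1, if_neg h2, map_zero, smul_zero, add_zero]
  | hadd u v hu hv => simp only [map_add, hu, hv]
  | hsmul c u hu => simp only [map_smul, hu]

end

/-- The braided antipode. -/
noncomputable def anti : U K q →ₗ[K] U K q :=
  tau ∘ₗ wt (fun g => (-1 : K) ^ ht g * q ^ ee g)

theorem anti_one : anti (1 : U K q) = 1 := by
  change tau (wt _ 1) = 1
  rw [wt_one_el, ht_zero, ee_zero, zpow_zero, zpow_zero, mul_one, one_smul, tau_one]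

theorem anti_x_mul (hq : q ≠ 0) (i : Fin 2) (u : U K q) :
    anti (x K q i * u) = - (anti (kap i u) * x K q i) := by
  change tau (wt _ (x K q i * u)) = - (tau (wt _ (wt _ u)) * x K q i)
  rw [wt_x_mul, tau_x_mul, wt_wt, ← neg_mul, ← map_neg, ← neg_one_smul K (wt _ u), ← wt_smul]
  congr 4
  funext g
  rw [ht_add, ht_al, ee_al, zpow_add₀ hq, zpow_add₀ (by simp : (-1 : K) ≠ 0), zpow_one]
  ring

theorem anti_pr (g : ℤ × ℤ) (u : U K q) :
    anti (pr g u) = ((-1 : K) ^ ht g * q ^ ee g) • tau (pr g u) := by
  change tau (wt _ (pr g u)) = _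
  rw [wt_pr, map_smul]

end Pool.Agent.L5helper22.QC
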