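import Pool.Agent.L5helper22.QC.Int

/-!
# Weights of elements killed on both sides, and of central elements
-/

set_option autoImplicit false

namespace Pool.Agent.L5helper22.QC

variable {K : Type*} [Field K] {q : K}

section

variable (hq : q ≠ 0)
include hq

omit hq in
theorem kap_hom (i : Fin 2) {g : ℤ × ℤ} {u : U K q} (hu : pr g u = u) :
    kap i u = (q ^ bf i g : K) • u := by
  have h := wt_pr (fun g => (q ^ bf i g : K)) g u
  rw [hu] at h
  exact h

theorem kap_ad_hom (i : Fin 2) {g : ℤ × ℤ} {u : U K q} (hu : pr g u = u) (k : ℕ) :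
    kap i ((ad i ^ k) u) = (q ^ (bf i g + 2 * k) : K) • (ad i ^ k) u := by
  induction k with
  | zero => simpa using kap_hom i hu
  | succ k ih =>
    rw [pow_succ', Module.End.mul_apply, kap_ad hq, ih, map_smul, smul_smul]
    congr 1
    rw [← zpow_two_eq, ← zpow_add₀ hq]
    congr 1
    push_cast
    ring

theorem ld_ad_hom (i : Fin 2) {g : ℤ × ℤ} {u : U K q} (hu : pr g u = u) (hl : ld hq i u = 0)
    (k : ℕ) : ld hq i ((ad i ^ (k + 1)) u) =
      (qn q (k + 1) * (1 - q ^ (2 * bf i g + 2 * k)) : K) • (ad i ^ k) u := by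
  have hkk : ∀ k : ℕ, kap i (kap i ((ad i ^ k) u)) =
      (q ^ (2 * bf i g + 4 * k) : K) • (ad i ^ k) u := by
    intro k
    rw [kap_ad_hom hq i hu, map_smul, kap_ad_hom hq i hu, smul_smul, ← zpow_add₀ hq]
    congr 2
    ring
  induction k with
  | zero =>
    have h := hkk 0
    rw [pow_zero, Module.End.one_apply] at h
    rw [zero_add, pow_one, ld_ad, hl, map_zero, smul_zero, add_zero, pow_zero,
      Module.End.one_apply, h]
    simp [qn, sub_smul]
  | succ k ih =>
    rw [pow_succ', Module.End.mul_apply, ld_ad, ih, hkk, map_smul, smul_smul, qn_succ' (k + 1)]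
    rw [← Module.End.mul_apply (ad i) (ad i ^ k) u, ← pow_succ' (ad i) k]
    have e1 : (q ^ (2 * bf i g + 4 * ((k + 1 : ℕ) : ℤ)) : K)
        = q ^ (2 * bf i g) * ((q ^ 2) ^ (k + 1)) ^ 2 := by
      rw [zpow_add₀ hq]
      congr 1
      rw [← pow_mul, ← pow_mul, ← zpow_natCast]
      congr 1
      push_cast
      ring
    have e2 : (q ^ (2 * bf i g + 2 * ((k + 1 : ℕ) : ℤ)) : K)
        = q ^ (2 * bf i g) * (q ^ 2) ^ (k + 1) := by
      rw [zpow_add₀ hq]
      congr 1
      rw [← pow_mul, ← zpow_natCast]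
      congr 1
    have e3 : (q ^ (2 * bf i g + 2 * ((k : ℕ) : ℤ)) : K) * q ^ 2
        = q ^ (2 * bf i g) * (q ^ 2) ^ (k + 1) := by
      rw [← e2, ← zpow_two_eq, ← zpow_add₀ hq]
      congr 1
      push_cast
      ring
    have e4 := qn_succ (q := q) (k + 1)
    rw [qn_succ' (k + 1)] at e4
    rw [e1, e2]
    match_scalars
    linear_combination (q ^ (2 * bf i g) * (q ^ 2) ^ (k + 1)) * e4 - qn q (k + 1) * e3

/-- The weight is nonpositive. -/
theorem bf_nonpos {i j : Fin 2} (hij : i ≠ j) (h1 : ∀ n : ℕ, 0 < n → q ^ n ≠ 1) {g : ℤ × ℤ}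
    {u : U K q} (hu : pr g u = u) (hl : ld hq i u = 0) (hr : rd hq i u = 0) (hu0 : u ≠ 0) :
    bf i g ≤ 0 := by
  classical
  have hn := ad_nil hq hij h1 hr
  obtain ⟨k, hk⟩ : ∃ k, Nat.find hn = k + 1 := by
    refine ⟨Nat.find hn - 1, ?_⟩
    have : Nat.find hn ≠ 0 := by
      intro h
      have h2 := Nat.find_spec hn
      rw [h] at h2
      exact hu0 (by simpa using h2)
    omega
  have h2 := Nat.find_spec hn
  have h3 := Nat.find_min hn (m := k) (by omega)
  rw [hk] at h2
  have h4 := ld_ad_hom hq i hu hl k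
  rw [h2, map_zero] at h4
  have h5 := (smul_eq_zero.1 h4.symm).resolve_right h3
  have h6 : (q ^ (2 * bf i g + 2 * (k : ℤ)) : K) = 1 :=
    (sub_eq_zero.1 ((mul_eq_zero.1 h5).resolve_left (qn_ne h1 k))).symm
  by_contra hc
  push Not at hc
  obtain ⟨n, hn'⟩ := Int.eq_ofNat_of_zero_le (show 0 ≤ 2 * bf i g + 2 * (k : ℤ) by omega)
  rw [hn', zpow_natCast] at h6
  exact h1 n (by omega) h6

/-- Iterated left skew derivations are eventually zero. -/
theorem ld_nil (i : Fin 2) (u : U K q) : ∃ n, (ld hq i ^ n) u = 0 := by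
  induction u using ind with
  | h1 => exact ⟨1, by rw [pow_one, ld_one]⟩
  | hx j u hu =>
    obtain ⟨n, hn⟩ := hu
    refine ⟨n + 1, ?_⟩
    have key : ∀ m : ℕ, ∃ c d : K, (ld hq i ^ (m + 1)) (x K q j * u) =
        c • (ld hq i ^ m) u + d • (x K q j * (ld hq i ^ (m + 1)) u) := by
      intro m
      induction m with
      | zero =>
        refine ⟨if i = j then 1 else 0, q ^ cc i j, ?_⟩
        rw [zero_add, pow_one, ld_x_mul, pow_zero, Module.End.one_apply]
        split_ifs <;> simp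
      | succ m ih =>
        obtain ⟨c, d, h⟩ := ih
        refine ⟨c + d * (if i = j then 1 else 0), d * q ^ cc i j, ?_⟩
        rw [pow_succ', Module.End.mul_apply, h, map_add, map_smul, map_smul, ld_x_mul,
          ← Module.End.mul_apply, ← pow_succ', ← Module.End.mul_apply, ← pow_succ']
        split_ifs <;> simp only [smul_add, smul_smul, add_smul, mul_one, mul_zero, zero_smul,
          smul_zero, add_zero, zero_add, add_assoc]
    obtain ⟨c, d, h⟩ := key n
    rw [h, hn, pow_succ', Module.End.mul_apply, hn, map_zero, mul_zero, smul_zero, smul_zero,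
      add_zero]
  | hadd u v hu hv =>
    obtain ⟨n, hn⟩ := hu
    obtain ⟨m, hm⟩ := hv
    refine ⟨max n m, ?_⟩
    have aux : ∀ {n m : ℕ} (_ : n ≤ m) {u : U K q} (_ : (ld hq i ^ n) u = 0),
        (ld hq i ^ m) u = 0 := by
      intro n m h u hu
      obtain ⟨k, rfl⟩ := Nat.exists_eq_add_of_le h
      rw [add_comm, pow_add, Module.End.mul_apply, hu, map_zero]
    rw [map_add, aux (le_max_left n m) hn, aux (le_max_right n m) hm, add_zero]
  | hsmul c u hu =>
    obtain ⟨n, hn⟩ := hu
    exact ⟨n, by rw [map_smul, hn, smul_zero]⟩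

omit hq in
theorem pr_sub {g : ℤ × ℤ} {u : U K q} (hu : pr g u = u) (i : Fin 2) (hq : q ≠ 0) :
    pr (g - al i) (ld hq i u) = ld hq i u := by
  have h := ld_pr hq i g u
  rw [hu] at h
  exact h.symm

theorem ld_pow_x_mul (i : Fin 2) (u : U K q) (n : ℕ) :
    (ld hq i ^ (n + 1)) (x K q i * u) =
      qn q (n + 1) • (ld hq i ^ n) u + ((q ^ 2) ^ (n + 1) : K) • (x K q i * (ld hq i ^ (n + 1)) u) := by
  induction n with
  | zero =>
    rw [zero_add, pow_one, ld_x_mul]
    simp [qn, cc, zpow_two_eq]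
  | succ n ih =>
    rw [pow_succ', Module.End.mul_apply, ih, map_add, map_smul, map_smul, ld_x_mul,
      ← Module.End.mul_apply, ← pow_succ', ← Module.End.mul_apply, ← pow_succ', qn_succ (n + 1)]
    simp only [if_true, cc, zpow_two_eq, smul_add, smul_smul, add_smul]
    rw [← pow_succ (q ^ 2) (n + 1)]
    abel

theorem ld_pow_mul_x (i : Fin 2) {g : ℤ × ℤ} {u : U K q} (hu : pr g u = u) (n : ℕ) :
    (ld hq i ^ (n + 1)) (u * x K q i) =
      (qn q (n + 1) * q ^ (bf i g - 2 * n) : K) • (ld hq i ^ n) u +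
        (ld hq i ^ (n + 1)) u * x K q i := by
  have hh : ∀ n : ℕ, pr (g - (n : ℤ) • al i) ((ld hq i ^ n) u) = (ld hq i ^ n) u := by
    intro n
    induction n with
    | zero => simpa using hu
    | succ n ih =>
      rw [pow_succ', Module.End.mul_apply]
      have h := pr_sub ih i hq
      rw [← h]
      congr 2
      push_cast
      rw [add_smul, one_smul]
      abel
  have hk : ∀ n : ℕ, kap i ((ld hq i ^ n) u) = (q ^ (bf i g - 2 * n) : K) • (ld hq i ^ n) u := by
    intro n
    rw [kap_hom i (hh n)]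
    congr 2
    rw [sub_eq_add_neg, bf_add]
    have : bf i (-((n : ℤ) • al i)) = - (2 * n) := by
      fin_cases i <;> simp [bf, al]
    rw [this]
    ring
  induction n with
  | zero =>
    have h := hk 0
    rw [pow_zero, Module.End.one_apply] at h
    rw [zero_add, pow_one, ld_mul, ld_x, if_pos rfl, mul_one, pow_zero, Module.End.one_apply, h,
      add_comm]
    simp [qn]
  | succ n ih =>
    rw [pow_succ', Module.End.mul_apply, ih, map_add, map_smul, ld_mul, ld_x, if_pos rfl, mul_one,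
      ← Module.End.mul_apply, ← pow_succ', hk, ← Module.End.mul_apply, ← pow_succ']
    rw [add_comm (_ * x K q i), ← add_assoc, ← add_smul]
    congr 2
    rw [qn_succ' (n + 1)]
    have e : (q ^ (bf i g - 2 * (n : ℤ)) : K) = q ^ 2 * q ^ (bf i g - 2 * ((n + 1 : ℕ) : ℤ)) := by
      rw [← zpow_two_eq, ← zpow_add₀ hq]
      congr 1
      push_cast
      ring
    rw [e]
    ring

/-- The weight of a central element is twice the order of nilpotency minus one. -/
theorem bf_of_central (i : Fin 2) (h1 : ∀ n : ℕ, 0 < n → q ^ n ≠ 1) {g : ℤ × ℤ} {u : U K q}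
    (hu : pr g u = u) (hu0 : u ≠ 0) (hc : x K q i * u = u * x K q i) :
    0 ≤ bf i g ∧ (bf i g = 0 → ld hq i u = 0) := by
  classical
  have hn := ld_nil hq i u
  obtain ⟨k, hk⟩ : ∃ k, Nat.find hn = k + 1 := by
    refine ⟨Nat.find hn - 1, ?_⟩
    have : Nat.find hn ≠ 0 := by
      intro h
      have h2 := Nat.find_spec hn
      rw [h] at h2
      exact hu0 (by simpa using h2)
    omega
  have h2 := Nat.find_spec hn
  have h3 := Nat.find_min hn (m := k) (by omega)
  rw [hk] at h2
  have h4 := ld_pow_x_mul hq i u k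
  rw [hc, ld_pow_mul_x hq i hu k, h2, zero_mul, mul_zero, smul_zero, add_zero, add_zero] at h4
  have h5 : (qn q (k + 1) * q ^ (bf i g - 2 * k) - qn q (k + 1) : K) • (ld hq i ^ k) u = 0 := by
    rw [sub_smul, h4, sub_self]
  have h6 := (smul_eq_zero.1 h5).resolve_right h3
  have h7 : (q ^ (bf i g - 2 * (k : ℤ)) : K) = 1 := by
    have : qn q (k + 1) * (q ^ (bf i g - 2 * (k : ℤ)) - 1) = 0 := by
      rw [mul_sub, mul_one]; exact h6
    exact sub_eq_zero.1 ((mul_eq_zero.1 this).resolve_left (qn_ne h1 k))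
  have h8 : bf i g - 2 * (k : ℤ) = 0 := by
    by_contra hne
    rcases lt_or_gt_of_ne hne with h | h
    · obtain ⟨n, hn'⟩ := Int.eq_ofNat_of_zero_le (show 0 ≤ -(bf i g - 2 * (k : ℤ)) by omega)
      have h9 : (q ^ (-(bf i g - 2 * (k : ℤ))) : K) = 1 := by rw [zpow_neg, h7, inv_one]
      rw [hn', zpow_natCast] at h9
      exact h1 n (by omega) h9
    · obtain ⟨n, hn'⟩ := Int.eq_ofNat_of_zero_le (show 0 ≤ (bf i g - 2 * (k : ℤ)) by omega)
      rw [hn', zpow_natCast] at h7
      exact h1 n (by omega) h7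
  refine ⟨by omega, fun h0 => ?_⟩
  have hk0 : k = 0 := by omega
  rw [hk0, zero_add, pow_one] at h2
  exact h2

end

end Pool.Agent.L5helper22.QC
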