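import Pool.Agent.L5helper22.QC.Grad

/-!
# Operators which act by a scalar on every homogeneous component
-/

set_option autoImplicit false

namespace Pool.Agent.L5helper22.QC

variable {K : Type*} [Field K] {q : K}

/-- Weighted sum of the coefficients. -/
noncomputable def Wt (f : ℤ × ℤ → K) : AddMonoidAlgebra (U K q) (ℤ × ℤ) →ₗ[K] U K q where
  toFun u := u.coeff.sum (fun g v => f g • v)
  map_add' u v := by
    rw [AddMonoidAlgebra.coeff_add]
    exact Finsupp.sum_add_index' (fun _ => smul_zero _) (fun _ _ _ => smul_add _ _ _)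
  map_smul' c u := by
    rw [AddMonoidAlgebra.coeff_smul, Finsupp.sum_smul_index' (fun _ => smul_zero _)]
    simp only [RingHom.id_apply]
    rw [Finsupp.smul_sum]
    exact Finsupp.sum_congr fun g _ => smul_comm _ _ _

@[simp] theorem Wt_single (f : ℤ × ℤ → K) (g : ℤ × ℤ) (v : U K q) :
    Wt f (AddMonoidAlgebra.single g v) = f g • v := by
  change (AddMonoidAlgebra.single g v).coeff.sum (fun g v => f g • v) = _
  rw [AddMonoidAlgebra.coeff_single]
  exact Finsupp.sum_single_index (h := fun g v => f g • v) (smul_zero _)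

theorem Wt_single_mul (f : ℤ × ℤ → K) (a : ℤ × ℤ) (v : U K q)
    (t : AddMonoidAlgebra (U K q) (ℤ × ℤ)) :
    Wt f (AddMonoidAlgebra.single a v * t) = v * Wt (fun g => f (a + g)) t := by
  induction t using AddMonoidAlgebra.induction_linear with
  | zero => simp
  | add s t hs ht => rw [mul_add, map_add, map_add, mul_add, hs, ht]
  | single b w => rw [AddMonoidAlgebra.single_mul_single, Wt_single, Wt_single, mul_smul_comm]

/-- The operator which acts by `f g` on the component of degree `g`. -/
noncomputable def wt (f : ℤ × ℤ → K) : U K q →ₗ[K] U K q := Wt f ∘ₗ G.toLinearMap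

theorem wt_def (f : ℤ × ℤ → K) (u : U K q) : wt f u = Wt f (G u) := rfl

theorem wt_one_el (f : ℤ × ℤ → K) : wt f (1 : U K q) = f 0 • 1 := by
  rw [wt_def, map_one, AddMonoidAlgebra.one_def, Wt_single]

theorem wt_x_mul (f : ℤ × ℤ → K) (i : Fin 2) (u : U K q) :
    wt f (x K q i * u) = x K q i * wt (fun g => f (al i + g)) u := by
  rw [wt_def, map_mul, G_x, Wt_single_mul, wt_def]

theorem wt_const (c : K) (u : U K q) : wt (fun _ => c) u = c • u := by
  induction u using ind with
  | h1 => rw [wt_one_el]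
  | hx i u hu => rw [wt_x_mul, hu, mul_smul_comm]
  | hadd u v hu hv => rw [map_add, hu, hv, smul_add]
  | hsmul c u hu => rw [map_smul, hu, smul_comm]

theorem wt_smul (c : K) (f : ℤ × ℤ → K) (u : U K q) : wt (fun g => c * f g) u = c • wt f u := by
  induction u using ind generalizing f with
  | h1 => rw [wt_one_el, wt_one_el, smul_smul]
  | hx i u hu => rw [wt_x_mul, hu, wt_x_mul, mul_smul_comm]
  | hadd u v hu hv => rw [map_add, hu, hv, map_add, smul_add]
  | hsmul c' u hu => rw [map_smul, hu, map_smul, smul_comm]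

theorem wt_wt (f h : ℤ × ℤ → K) (u : U K q) : wt f (wt h u) = wt (fun g => f g * h g) u := by
  induction u using ind generalizing f h with
  | h1 => rw [wt_one_el, wt_one_el, map_smul, wt_one_el, smul_smul, mul_comm]
  | hx i u hu => rw [wt_x_mul, wt_x_mul, hu, wt_x_mul]
  | hadd u v hu hv => rw [map_add, map_add, hu, hv, map_add]
  | hsmul c' u hu => rw [map_smul, map_smul, hu, map_smul]

theorem pr_eq_wt (g : ℤ × ℤ) (u : U K q) : pr g u = wt (fun h => if h = g then 1 else 0) u := by
  induction u using ind generalizing g with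
  | h1 =>
    rw [pr_one, wt_one_el]
    by_cases h : g = 0
    · simp [h]
    · rw [if_neg h, if_neg (Ne.symm h), zero_smul]
  | hx i u hu =>
    rw [pr_x_mul, hu, wt_x_mul]
    congr 3
    funext h
    by_cases h' : h = g - al i
    · rw [if_pos h', if_pos (by rw [h']; abel)]
    · rw [if_neg h', if_neg (by rintro rfl; exact h' (by abel))]
  | hadd u v hu hv => rw [map_add, map_add, hu, hv]
  | hsmul c' u hu => rw [map_smul, map_smul, hu]

theorem wt_pr (f : ℤ × ℤ → K) (g : ℤ × ℤ) (u : U K q) : wt f (pr g u) = f g • pr g u := by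
  rw [pr_eq_wt, wt_wt, ← wt_smul]
  congr 2
  funext h
  by_cases h' : h = g
  · rw [if_pos h', h']
  · rw [if_neg h', mul_zero, mul_zero]

theorem pr_wt (f : ℤ × ℤ → K) (g : ℤ × ℤ) (u : U K q) : pr g (wt f u) = f g • pr g u := by
  rw [pr_eq_wt, wt_wt, pr_eq_wt, ← wt_smul]
  congr 2
  funext h
  by_cases h' : h = g
  · rw [if_pos h', h', mul_comm]
  · rw [if_neg h', mul_zero, zero_mul]

theorem pr_pr (g h : ℤ × ℤ) (u : U K q) : pr g (pr h u) = if g = h then pr h u else 0 := by
  rw [pr_eq_wt g, wt_pr]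
  by_cases h' : g = h
  · rw [if_pos h', if_pos h'.symm, one_smul]
  · rw [if_neg h', if_neg (Ne.symm h'), zero_smul]

theorem pr_self (g : ℤ × ℤ) (u : U K q) : pr g (pr g u) = pr g u := by rw [pr_pr, if_pos rfl]

theorem sum_pr (u : U K q) : (G u).coeff.sum (fun _ v => v) = u := by
  have h := wt_const (1 : K) u
  rw [one_smul] at h
  refine Eq.trans ?_ h
  rw [wt_def]
  change _ = (G u).coeff.sum (fun g v => (1 : K) • v)
  simp only [one_smul]

/-- Everything is a sum of homogeneous components. -/
theorem mem_of_pr {p : Submodule K (U K q)} {u : U K q} (h : ∀ g, pr g u ∈ p) : u ∈ p := by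
  rw [← sum_pr u]
  exact Submodule.sum_mem _ fun g _ => h g

theorem eq_zero_of_pr {u : U K q} (h : ∀ g, pr g u = 0) : u = 0 := by
  have := mem_of_pr (p := ⊥) (u := u) (by simpa using h)
  simpa using this

/-- Components of nonpositive height. -/
theorem pr_nonpos (g : ℤ × ℤ) (u : U K q) (hg : ht g ≤ 0) (hg0 : g ≠ 0) : pr g u = 0 := by
  induction u using ind generalizing g with
  | h1 => rw [pr_one, if_neg hg0]
  | hx i u hu =>
    rw [pr_x_mul, hu, mul_zero]
    · rw [sub_eq_add_neg, ht_add]
      have : ht (-al i) = -1 := by fin_cases i <;> simp [ht, al]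
      omega
    · intro h
      have : ht (g - al i) = 0 := by rw [h]; rfl
      rw [sub_eq_add_neg, ht_add] at this
      have h2 : ht (-al i) = -1 := by fin_cases i <;> simp [ht, al]
      omega
  | hadd u v hu hv => rw [map_add, hu g hg hg0, hv g hg hg0, add_zero]
  | hsmul c' u hu => rw [map_smul, hu g hg hg0, smul_zero]

theorem pr_zero_mem (u : U K q) : ∃ c : K, pr 0 u = algebraMap K (U K q) c := by
  induction u using ind with
  | h1 => exact ⟨1, by rw [pr_one, if_pos rfl, map_one]⟩
  | hx i u _ =>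
    refine ⟨0, ?_⟩
    rw [pr_x_mul, pr_nonpos, mul_zero, map_zero]
    · rw [zero_sub]; fin_cases i <;> simp [ht, al]
    · rw [zero_sub]; fin_cases i <;> simp [al]
  | hadd u v hu hv =>
    obtain ⟨a, ha⟩ := hu
    obtain ⟨b, hb⟩ := hv
    exact ⟨a + b, by rw [map_add, ha, hb, map_add]⟩
  | hsmul c u hu =>
    obtain ⟨a, ha⟩ := hu
    exact ⟨c * a, by rw [map_smul, ha, map_mul, Algebra.smul_def]⟩

end Pool.Agent.L5helper22.QC
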